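import Pool.Agent.Q281.MF.Word

/-! Half-plane lemma and strict fundamental domain. -/

open UpperHalfPlane Matrix
open scoped MatrixGroups

namespace Q281.MF

noncomputable section

lemma ext' {z w : ℍ} (h1 : z.re = w.re) (h2 : z.im = w.im) : z = w := by
  apply UpperHalfPlane.ext
  exact Complex.ext h1 h2

lemma fix_of_F (i : Fin 5) (z : ℍ) (h : F i z = 0) : r i • z = z := by
  have h' : ca i * (z.re ^ 2 + z.im ^ 2) + cb i * z.re + cc i = 0 := by
    rw [F, Fv, div_eq_zero_iff] at h
    exact h.resolve_right z.im_ne_zero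
  have hD := D_pos (toR (gq i)) z
  apply ext'
  · rw [r, pglMk_smul, re_smul', div_eq_iff hD.ne']
    simp only [toR_gq]
    fin_cases i <;> simp [ca, cb, cc, Rm] at h' ⊢
    · rw [h']; ring
    · linear_combination (z.re) * h'
    · linear_combination (30 - 16 * z.re) * h'
    · linear_combination (12 - 11 * z.re) * h'
    · linear_combination (-11 * z.re) * h'
  · rw [r, pglMk_smul, im_smul', div_eq_iff hD.ne', toR_det]
    simp only [toR_gq]
    fin_cases i <;> simp [ca, cb, cc, Rm, dt] at h' ⊢
    · linear_combination (z.im) * h'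
    · linear_combination (- 16 * z.im) * h'
    · linear_combination (- 11 * z.im) * h'
    · linear_combination (-11 * z.im) * h'

/-- the set of isometries given by words -/
def IsW (w : PGL(2, ℝ)) : Prop := ∃ l, P l = w

lemma IsW.one : IsW 1 := ⟨[], rfl⟩
lemma IsW.mul {v w : PGL(2, ℝ)} (hv : IsW v) (hw : IsW w) : IsW (v * w) := by
  obtain ⟨l, rfl⟩ := hv; obtain ⟨m, rfl⟩ := hw
  exact ⟨l ++ m, P_append l m⟩
lemma IsW.inv {v : PGL(2, ℝ)} (hv : IsW v) : IsW v⁻¹ := by
  obtain ⟨l, rfl⟩ := hv
  exact ⟨l.reverse, P_reverse l⟩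
lemma IsW.r (i : Fin 5) : IsW (r i) := ⟨[i], by simp⟩

open Classical in
/-- word length -/
def len (w : PGL(2, ℝ)) : ℕ := sInf {n | ∃ l : List (Fin 5), l.length = n ∧ P l = w}

lemma len_le (l : List (Fin 5)) : len (P l) ≤ l.length := Nat.sInf_le ⟨l, rfl, rfl⟩

lemma exists_len {w : PGL(2, ℝ)} (hw : IsW w) : ∃ l : List (Fin 5), l.length = len w ∧ P l = w := by
  obtain ⟨l, hl⟩ := hw
  exact Nat.sInf_mem (s := {n | ∃ l : List (Fin 5), l.length = n ∧ P l = w}) ⟨l.length, l, rfl, hl⟩

lemma len_r_mul {w : PGL(2, ℝ)} (hw : IsW w) (i : Fin 5) : len (r i * w) ≤ len w + 1 := by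
  obtain ⟨l, h1, h2⟩ := exists_len hw
  have := len_le (i :: l)
  rw [P_cons, h2, List.length_cons, h1] at this
  exact this

/-- total parity of a colour -/
def tot (x : ZMod 2 × ZMod 2 × ZMod 2) : ZMod 2 := x.1 + x.2.1 + x.2.2

lemma tot_col (l : List (Fin 5)) : tot (col l) = (l.length : ZMod 2) := by
  induction l with
  | nil => simp [tot]
  | cons i l ih =>
    have h : tot (clr i + col l) = tot (clr i) + tot (col l) := by simp [tot]; ring
    rw [col_cons, h, ih]
    have : tot (clr i) = 1 := by fin_cases i <;> rfl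
    rw [this, List.length_cons]; push_cast; ring

lemma len_r_ne {w : PGL(2, ℝ)} (hw : IsW w) (i : Fin 5) : len (r i * w) ≠ len w := by
  intro h
  obtain ⟨l, h1, h2⟩ := exists_len hw
  obtain ⟨m, h3, h4⟩ := exists_len ((IsW.r i).mul hw)
  have h5 : P m = P (i :: l) := by rw [h4, P_cons, h2]
  have h6 := congrArg tot (col_congr h5)
  rw [tot_col, tot_col, h3, h, List.length_cons, h1] at h6
  push_cast at h6
  have : (1 : ZMod 2) = 0 := by linear_combination -h6
  exact absurd this (by decide)

lemma fin5 (i j : Fin 5) : i = j ∨ i = j + 1 ∨ j = i + 1 ∨ i = j + 2 ∨ j = i + 2 := by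
  revert i j; decide

/-- the closed pentagon -/
def Pent : Set ℍ := {z | ∀ k, 0 ≤ F k z}

lemma half (n : ℕ) : ∀ w : PGL(2, ℝ), IsW w → len w = n → ∀ i, len w < len (r i * w) →
    ∀ p : ℍ, p ∈ Pent → 0 ≤ F i (w • p) ∧ ((∀ k, 0 < F k p) → 0 < F i (w • p)) := by
  induction n using Nat.strong_induction_on with
  | _ n ih =>
    intro w hw hn i hi p hp
    obtain ⟨l, h1, h2⟩ := exists_len hw
    cases l with
    | nil =>
      rw [P_nil] at h2
      rw [← h2, one_smul]
      exact ⟨hp i, fun h => h i⟩
    | cons j l =>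
      rw [P_cons] at h2
      set w' := P l with hw'
      have hW' : IsW w' := ⟨l, rfl⟩
      have hlt : len w' < len w := by
        have := len_le l
        rw [← hw'] at this
        rw [List.length_cons] at h1
        omega
      have hlen : len w = len w' + 1 := by
        have := len_r_mul hW' j
        rw [h2] at this
        omega
      have hj := ih (len w') (by omega) w' hW' rfl j (by rw [h2]; exact hlt) p hp
      have hFj : F j (w • p) = - F j (w' • p) := by
        rw [← h2, mul_smul, F_r_self]
      have hle : F j (w • p) ≤ 0 := by rw [hFj]; linarith [hj.1]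
      rcases fin5 i j with h | h | h | h | h
      · exfalso
        rw [h, ← h2, ← mul_assoc, r_sq, one_mul, h2] at hi
        omega
      · -- i = j + 1
        have hlt2 : len w' < len (r i * w') := by
          have e : r i * w = r j * (r i * w') := by
            rw [← h2, ← mul_assoc, ← mul_assoc, h, r_comm]
          have := len_r_mul ((IsW.r i).mul hW') j
          rw [← e] at this
          omega
        have hi2 := ih (len w') (by omega) w' hW' rfl i hlt2 p hp
        have hF : F i (w • p) = F i (w' • p) := by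
          rw [← h2, mul_smul, h, F_r_adj']
        rw [hF]; exact hi2
      · -- j = i + 1
        have hlt2 : len w' < len (r i * w') := by
          have e : r i * w = r j * (r i * w') := by
            rw [← h2, ← mul_assoc, ← mul_assoc, h, r_comm]
          have := len_r_mul ((IsW.r i).mul hW') j
          rw [← e] at this
          omega
        have hi2 := ih (len w') (by omega) w' hW' rfl i hlt2 p hp
        have hF : F i (w • p) = F i (w' • p) := by
          rw [← h2, mul_smul, h, F_r_adj]
        rw [hF]; exact hi2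
      · have := F_far j (w • p) hle
        rw [← h] at this
        exact ⟨this.le, fun _ => this⟩
      · rw [h] at hle
        have := F_far' i (w • p) hle
        exact ⟨this.le, fun _ => this⟩

/-- first letter of a shortest word -/
lemma exists_desc {w : PGL(2, ℝ)} (hw : IsW w) (h1 : w ≠ 1) :
    ∃ j w', IsW w' ∧ w = r j * w' ∧ len w' < len w := by
  obtain ⟨l, h2, h3⟩ := exists_len hw
  cases l with
  | nil => exact absurd h3.symm h1
  | cons j l =>
    refine ⟨j, P l, ⟨l, rfl⟩, by rw [← h3, P_cons], ?_⟩
    have := len_le l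
    rw [List.length_cons] at h2
    omega

/-- strict fundamental domain -/
lemma sfd (n : ℕ) : ∀ w : PGL(2, ℝ), IsW w → len w = n → ∀ p ∈ Pent, w • p ∈ Pent →
    w • p = p ∧ w ∈ Subgroup.closure (r '' {i | F i p = 0}) := by
  induction n using Nat.strong_induction_on with
  | _ n ih =>
    intro w hw hn p hp hwp
    by_cases h1 : w = 1
    · rw [h1, one_smul]; exact ⟨rfl, one_mem _⟩
    obtain ⟨j, w', hW', h2, hlt⟩ := exists_desc hw h1
    have hj := (half (len w') w' hW' rfl j (by rw [← h2]; exact hlt) p hp).1
    have hFj : F j (w • p) = - F j (w' • p) := by rw [h2, mul_smul, F_r_self]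
    have h0 : F j (w • p) = 0 := le_antisymm (by linarith) (hwp j)
    have hfix := fix_of_F j (w • p) h0
    have hw'p : w' • p = w • p := by
      rw [← hfix, h2, mul_smul, r_r_smul]
    have := ih (len w') (by omega) w' hW' rfl p hp (by rw [hw'p]; exact hwp)
    refine ⟨by rw [← hw'p]; exact this.1, ?_⟩
    rw [h2]
    refine mul_mem (Subgroup.subset_closure ⟨j, ?_, rfl⟩) this.2
    have e : w • p = p := by rw [← hw'p]; exact this.1
    rw [e] at h0
    exact h0

end

end Q281.MF
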