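import Mathlib

/-!
Closed orientable hyperbolic surfaces, simple closed geodesics, 1-systems.
-/

open UpperHalfPlane Matrix
open scoped MatrixGroups

namespace Q281.MF

noncomputable section

/-- `ℍ / G` is a closed orientable hyperbolic surface: `G` is a group of isometries of the
hyperbolic plane that are given by elements of `SL(2, ℝ)` (so they preserve the orientation),
acting freely and properly discontinuously with compact quotient. -/
structure IsSurfaceGroup (G : Subgroup PGL(2, ℝ)) : Prop where
  orientation : ∀ g ∈ G, ∃ A : SL(2, ℝ), g = SpecialLinearGroup.toPGL A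
  free : ∀ g ∈ G, ∀ z : ℍ, g • z = z → g = 1
  disc : ProperlyDiscontinuousSMul G ℍ
  cocompact : CompactSpace (MulAction.orbitRel.Quotient G ℍ)

/-- the surface `ℍ / G` -/
abbrev Surface (G : Subgroup PGL(2, ℝ)) : Type := MulAction.orbitRel.Quotient G ℍ

/-- the projection `ℍ → ℍ / G` -/
def proj (G : Subgroup PGL(2, ℝ)) : ℍ → Surface G := Quotient.mk _

/-- A complete geodesic of the hyperbolic plane: an image of the imaginary axis under an element
of `SL(2, ℝ)`. -/
def IsGeodesic (L : Set ℍ) : Prop := ∃ A : SL(2, ℝ), L = (fun z : ℍ => A • z) '' {z | z.re = 0}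

/-- A simple closed geodesic of `ℍ / G`: the image of a complete geodesic `L` that is preserved
by some nontrivial element of `G` (so that its image is a closed geodesic) and whose translates
under `G` are equal to `L` or disjoint from `L` (so that its image has no self-intersection). -/
def IsSimpleClosedGeodesic (G : Subgroup PGL(2, ℝ)) (C : Set (Surface G)) : Prop :=
  ∃ L : Set ℍ, IsGeodesic L ∧ C = proj G '' L ∧ (∃ g ∈ G, g ≠ 1 ∧ (fun z => g • z) '' L = L) ∧
    ∀ g ∈ G, (fun z => g • z) '' L = L ∨ Disjoint ((fun z => g • z) '' L) L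

/-- A 1-system: a set of simple closed geodesics, any two of which meet in at most one point. -/
structure IsOneSystem (G : Subgroup PGL(2, ℝ)) (Γ : Set (Set (Surface G))) : Prop where
  geodesic : ∀ C ∈ Γ, IsSimpleClosedGeodesic G C
  meet : ∀ C ∈ Γ, ∀ C' ∈ Γ, C ≠ C' → (C ∩ C').Subsingleton

/-- A 1-system that is maximal with respect to inclusion. -/
def IsMaximalOneSystem (G : Subgroup PGL(2, ℝ)) (Γ : Set (Set (Surface G))) : Prop :=
  IsOneSystem G Γ ∧ ∀ Δ, IsOneSystem G Δ → Γ ⊆ Δ → Δ = Γ

/-- `Γ` fills the closed surface `ℍ / G`: every connected component of the complement of the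
union of the curves is an open topological disc. -/
def Fills (G : Subgroup PGL(2, ℝ)) (Γ : Set (Set (Surface G))) : Prop :=
  ∀ x ∈ (⋃₀ Γ)ᶜ, Nonempty (connectedComponentIn (⋃₀ Γ)ᶜ x ≃ₜ Metric.ball (0 : ℂ) 1)

end

end Q281.MF
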