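import Pool.Agent.Q281.MF.Wall

/-! A simple closed geodesic meeting the image of the axis at most once is disjoint from it. -/

open UpperHalfPlane Matrix
open scoped MatrixGroups

namespace Q281.MF

noncomputable section

lemma F0_zero_iff_fix {z : ℍ} : F 0 z = 0 ↔ r 0 • z = z := by
  constructor
  · exact fix_of_F 0 z
  · intro h
    have := F_r_self 0 z
    rw [h] at this
    linarith

lemma eq_r0 {w : List (Fin 5)} {p : ℍ} (hp : p ∈ Pent) (h : P w • p = p) (hc : col w = clr 0) :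
    P w = r 0 := by
  obtain ⟨j, -, hj⟩ := sfd_four (IsW.P w) hp (by rw [h]; exact hp)
  rcases hj with h1 | h1 | h1 | h1
  · exfalso
    have := col_congr (l := w) (m := []) h1
    rw [hc] at this
    exact absurd this (by decide)
  · have := col_congr (l := w) (m := [j]) (by rw [h1]; simp)
    rw [hc] at this
    rw [h1]
    congr 1
    revert this; clear h1; revert j; decide
  · have := col_congr (l := w) (m := [j + 1]) (by rw [h1]; simp)
    rw [hc] at this
    rw [h1]
    congr 1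
    revert this; clear h1; revert j; decide
  · exfalso
    have := col_congr (l := w) (m := [j, j + 1]) (by rw [h1]; simp)
    rw [hc] at this
    revert this; clear h1; revert j; decide

/-- the image of the axis is simple -/
lemma axis_simple (g : PGL(2, ℝ)) (hg : g ∈ G0) :
    (fun z => g • z) '' axis = axis ∨ Disjoint ((fun z => g • z) '' axis) axis := by
  by_cases hd : Disjoint ((fun z => g • z) '' axis) axis
  · exact Or.inr hd
  left
  obtain ⟨z, hz1, hz2⟩ := Set.not_disjoint_iff.mp hd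
  rw [mem_image_smul] at hz1
  have f1 : F 0 (g⁻¹ • z) = 0 := F0_zero.mpr hz1
  have f2 : F 0 z = 0 := F0_zero.mpr hz2
  obtain ⟨l, rfl, hl⟩ := hg
  obtain ⟨w, ⟨m, rfl⟩, hp⟩ := tiles_cover z
  have s1 : P (m ++ [0] ++ m.reverse) = r 0 := by
    refine eq_r0 hp ?_ (by rw [col_conj]; simp)
    rw [P_append, P_append, P_reverse, P_cons, P_nil, mul_one]
    simp only [mul_smul, inv_smul_smul]
    rw [fix_of_F 0 z f2]
  have s2 : P ((m ++ l) ++ [0] ++ (m ++ l).reverse) = r 0 := by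
    refine eq_r0 hp ?_ (by rw [col_conj]; simp)
    rw [P_append, P_append, P_reverse, P_append, P_cons, P_nil, mul_one, _root_.mul_inv_rev]
    simp only [mul_smul, inv_smul_smul]
    rw [fix_of_F 0 _ f1, smul_inv_smul]
  have hcomm : P l * r 0 * (P l)⁻¹ = r 0 := by
    rw [← s1] at s2
    simp only [P_append, P_reverse, P_cons, P_nil, mul_one, _root_.mul_inv_rev] at s2
    have := congrArg (fun x => (P m)⁻¹ * x * P m) s2
    simpa [mul_assoc] using this
  ext v
  rw [mem_image_smul]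
  show (_ : ℝ) = 0 ↔ (_ : ℝ) = 0
  rw [← F0_zero, ← F0_zero, F0_zero_iff_fix, F0_zero_iff_fix]
  constructor
  · intro h
    calc r 0 • v = (P l * r 0 * (P l)⁻¹) • v := by rw [hcomm]
      _ = P l • r 0 • (P l)⁻¹ • v := by rw [mul_smul, mul_smul]
      _ = v := by rw [h, smul_inv_smul]
  · intro h
    rw [eq_inv_smul_iff, ← mul_smul, ← mul_smul, hcomm, h]

lemma simple_axis : IsSimpleClosedGeodesic G0 (proj G0 '' axis) :=
  ⟨axis, isGeodesic_axis, rfl, ⟨_, h_mem, hom_h.ne_one (by norm_num), hom_h.axis (by norm_num)⟩,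
    axis_simple⟩

lemma F0_param (g : PGL(2, ℝ)) (A : SL(2, ℝ)) : ∃ α β : ℝ, ∀ t,
    F 0 (g • (A • iE t)) = α * Real.exp t + β * Real.exp (-t) := by
  induction g using ProjGenLinGroup.induction_on with
  | mk g =>
    set B : GL (Fin 2) ℝ := g * SpecialLinearGroup.mapGL ℝ A with hB
    refine ⟨B 0 0 * B 1 0 / |B.det.val|, B 0 1 * B 1 1 / |B.det.val|, fun t => ?_⟩
    have e : ProjGenLinGroup.mk g • (A • iE t) = B • iE t := by
      rw [pglMk_smul, hB, mul_smul, MulAction.compHom_smul_def]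
    have hd : |B.det.val| ≠ 0 := (abs_pos.mpr B.det.ne_zero).ne'
    rw [e, F, Fv_smul, iE_re, iE_im]
    simp only [ca, cb, cc, Matrix.cons_val_zero]
    rw [Real.exp_neg]
    have he := (Real.exp_pos t).ne'
    field_simp
    ring

lemma exists_shift {G : Subgroup PGL(2, ℝ)} (hG : IsSurfaceGroup G) {A : SL(2, ℝ)}
    {M : Set ℍ} (hM : M = (fun z : ℍ => A • z) '' {z | z.re = 0}) {k : PGL(2, ℝ)} (hk : k ∈ G)
    (hk1 : k ≠ 1) (hkM : (fun z => k • z) '' M = M) :
    ∃ τ ≠ 0, ∀ t, k • (A • iE t) = A • iE (t + τ) := by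
  obtain ⟨K, hK⟩ := hG.orientation k hk
  have hmem : ∀ t, (A • iE t : ℍ) ∈ M := fun t => by rw [hM]; exact ⟨iE t, rfl, rfl⟩
  have hact : ∀ t, k • (A • iE t) = A • ((A⁻¹ * K * A) • iE t) := by
    intro t
    rw [hK, toPGL_smul, ← mul_smul, ← mul_smul]
    congr 1
    group
  have hB : ∀ t, ((A⁻¹ * K * A) • iE t).re = 0 := by
    intro t
    have h1 : k • (A • iE t) ∈ M := by rw [← hkM]; exact ⟨_, hmem t, rfl⟩
    rw [hact, hM] at h1
    obtain ⟨w, hw, hw2⟩ := h1
    have : w = (A⁻¹ * K * A) • iE t := by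
      simpa using hw2
    rw [← this]; exact hw
  rcases axis_elem _ hB with ⟨t, ht⟩ | ⟨τ, hτ, h⟩
  · exfalso
    refine hk1 (hG.free k hk (A • iE t) ?_)
    rw [hact, ht]
  · exact ⟨τ, hτ, fun t => by rw [hact, h]⟩

lemma gamma_inj {A : SL(2, ℝ)} {s t : ℝ} (h : A • iE s = A • iE t) : s = t := by
  have h1 := MulAction.injective A h
  have h2 := congrArg UpperHalfPlane.im h1
  rw [iE_im, iE_im] at h2
  exact Real.exp_injective h2

theorem even {C : Set (Surface G0)} (hC : IsSimpleClosedGeodesic G0 C)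
    (hsub : (C ∩ proj G0 '' axis).Subsingleton) : Disjoint C (proj G0 '' axis) := by
  obtain ⟨L, ⟨A, hA⟩, hCL, ⟨k, hk, hk1, hkL⟩, hsimple⟩ := hC
  by_contra hdis
  obtain ⟨x, hx1, hx2⟩ := Set.not_disjoint_iff.mp hdis
  set γ : ℝ → ℍ := fun t => A • iE t with hγ
  have hγc : Continuous γ := (continuous_const_smul A).comp continuous_iE
  have hγL : ∀ t, γ t ∈ L := fun t => by rw [hA]; exact ⟨iE t, rfl, rfl⟩
  have hγC : ∀ t, proj G0 (γ t) ∈ C := fun t => by rw [hCL]; exact ⟨γ t, hγL t, rfl⟩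
  have hwallC : ∀ t, IsWall (γ t) → proj G0 (γ t) ∈ C ∩ proj G0 '' axis := by
    intro t ht
    obtain ⟨g, hg, a, ha, hga⟩ := wall_axis ht
    exact ⟨hγC t, a, ha, (proj_eq.mpr ⟨g, hg, hga⟩).symm⟩
  obtain ⟨t0, ht0⟩ : ∃ t0, IsWall (γ t0) := by
    rw [hCL] at hx1
    obtain ⟨l, hl, rfl⟩ := hx1
    obtain ⟨a, ha, hax⟩ := hx2
    obtain ⟨g, hg, hgl⟩ := proj_eq.mp hax.symm
    rw [hA] at hl
    obtain ⟨v, hv, rfl⟩ := hl
    refine ⟨Real.log v.im, ?_⟩
    have e : γ (Real.log v.im) = g • a := by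
      rw [hgl, hγ]; show A • iE _ = A • v; rw [← eq_iE hv]
    rw [e]
    exact wall_G hg ⟨[], by rw [P_nil, one_smul]; exact F0_zero.mpr ha⟩
  obtain ⟨m, δ, hδ, H⟩ := wall_local ht0
  obtain ⟨α, β, hφ⟩ := F0_param (P m) A
  have hφ0 : α * Real.exp t0 + β * Real.exp (-t0) = 0 := by
    rw [← hφ]
    exact (H (γ t0) (by rw [dist_self]; exact hδ)).1.mp ht0
  have cov := isCovering G0_surface
  have hα : α ≠ 0 := by
    intro hα
    have hβ : β = 0 := by
      rw [hα, zero_mul, zero_add] at hφ0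
      exact (mul_eq_zero.mp hφ0).resolve_right (Real.exp_pos _).ne'
    have hall : ∀ t, IsWall (γ t) := fun t => ⟨m, by
      show F 0 (P m • (A • iE t)) = 0
      rw [hφ, hα, hβ]; ring⟩
    have hcomp : proj G0 ∘ γ = proj G0 ∘ (fun _ => γ 0) := by
      funext t
      exact hsub (hwallC t (hall t)) (hwallC 0 (hall 0))
    have := cov.eq_of_comp_eq hγc continuous_const hcomp 0 rfl
    have h1 := congrFun this 1
    have := gamma_inj h1
    norm_num at this
  have hβ : β * Real.exp (-t0) = -(α * Real.exp t0) := by linarith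
  -- `φ` in factored form
  have hφ' : ∀ u, F 0 (P m • γ (t0 + u)) = α * Real.exp t0 * (Real.exp u - Real.exp (-u)) := by
    intro u
    show F 0 (P m • (A • iE (t0 + u))) = _
    rw [hφ, neg_add, Real.exp_add, Real.exp_add]
    linear_combination Real.exp (-u) * hβ
  have hexp : ∀ u : ℝ, 0 < u → 0 < Real.exp u - Real.exp (-u) := by
    intro u hu
    have : Real.exp (-u) < Real.exp u := Real.exp_lt_exp.mpr (by linarith)
    linarith
  have hαe : α * Real.exp t0 ≠ 0 := mul_ne_zero hα (Real.exp_pos _).ne'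
  have hφne : ∀ u, u ≠ 0 → F 0 (P m • γ (t0 + u)) ≠ 0 := by
    intro u hu
    rw [hφ']
    refine mul_ne_zero hαe ?_
    rcases lt_or_gt_of_ne hu with h | h
    · have := hexp (-u) (by linarith)
      rw [neg_neg] at this
      intro h0; linarith
    · exact (hexp u h).ne'
  obtain ⟨η, hη, hηd⟩ : ∃ η > 0, ∀ t, |t - t0| < η → dist (γ t) (γ t0) < δ := by
    have := Metric.continuous_iff.mp hγc t0 δ hδ
    obtain ⟨η, hη, h⟩ := this
    exact ⟨η, hη, fun t ht => h t (by rwa [Real.dist_eq])⟩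
  have hopen : ∀ ε : ZMod 2, IsOpen {t | ¬ IsWall (γ t) ∧ γ t ∈ Side ε} := by
    intro ε
    rw [Metric.isOpen_iff]
    rintro t ⟨h1, h2⟩
    obtain ⟨δ', hδ', h3⟩ := off_local h1 h2
    obtain ⟨η', hη', h4⟩ := Metric.continuous_iff.mp hγc t δ' hδ'
    exact ⟨η', hη', fun s hs => h3 _ (h4 s (Metric.mem_ball.mp hs))⟩
  have hTclosed : IsClosed {t | IsWall (γ t)} := by
    have : {t | IsWall (γ t)}ᶜ = {t | ¬ IsWall (γ t) ∧ γ t ∈ Side 0} ∪
        {t | ¬ IsWall (γ t) ∧ γ t ∈ Side 1} := by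
      ext t
      constructor
      · intro h
        rcases side_cover (γ t) with h' | h'
        · exact Or.inl ⟨h, h'⟩
        · exact Or.inr ⟨h, h'⟩
      · rintro (h | h)
        · exact h.1
        · exact h.1
    rw [← isOpen_compl_iff, this]
    exact (hopen 0).union (hopen 1)
  obtain ⟨m', hm', τ, hτ, -, hshift⟩ := exists_translation G0_surface hA hk hk1 hkL
  have hwτ : IsWall (γ (t0 + τ)) := by
    show IsWall (A • iE (t0 + τ))
    rw [← hshift]
    exact wall_G hm' ht0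
  set η' := min (η / 2) τ with hη'
  have hη'0 : 0 < η' := lt_min (by linarith) hτ
  obtain ⟨t1, ht1, hleast⟩ := (isCompact_Icc (a := t0 + η') (b := t0 + τ)).inter_right
    hTclosed |>.exists_isLeast ⟨t0 + τ, ⟨by
      have := min_le_right (η / 2) τ
      constructor <;> linarith, hwτ⟩⟩
  have ht01 : t0 < t1 := by linarith [ht1.1.1]
  have hIoo : ∀ t ∈ Set.Ioo t0 t1, ¬ IsWall (γ t) := by
    rintro t ⟨h1, h2⟩ hw
    by_cases h3 : t < t0 + η'
    · have h4 : |t - t0| < η := by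
        rw [abs_lt]
        have := min_le_left (η / 2) τ
        constructor <;> linarith
      have h5 := (H (γ t) (hηd t h4)).1.mp hw
      have h6 := hφne (t - t0) (by linarith)
      rw [add_sub_cancel] at h6
      exact h6 h5
    · have : t1 ≤ t := hleast ⟨⟨not_lt.mp h3, by linarith [ht1.1.2]⟩, hw⟩
      linarith
  -- the isometry taking `γ t0` to `γ t1`
  have hpr : proj G0 (γ t1) = proj G0 (γ t0) := hsub (hwallC t1 ht1.2) (hwallC t0 ht0)
  obtain ⟨g, hg, hg1⟩ := proj_eq.mp hpr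
  have hgL : (fun z => g • z) '' L = L := by
    rcases hsimple g hg with h | h
    · exact h
    · exact absurd (hγL t1) (Set.disjoint_left.mp h ⟨γ t0, hγL t0, hg1⟩)
  have hgne : g ≠ 1 := by
    rintro rfl
    rw [one_smul] at hg1
    have := gamma_inj hg1
    linarith
  obtain ⟨σ, hσ, hgσ⟩ := exists_shift G0_surface hA hg hgne hgL
  have hσ1 : t0 + σ = t1 := by
    have : γ t1 = A • iE (t0 + σ) := by rw [← hg1]; exact hgσ t0
    exact (gamma_inj this).symm
  have hσ0 : 0 < σ := by linarith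
  -- constancy of the side
  obtain ⟨ε, hε⟩ : ∃ ε, ∀ t ∈ Set.Ioo t0 t1, γ t ∈ Side ε := by
    have hdisj : Disjoint {t | ¬ IsWall (γ t) ∧ γ t ∈ Side 0}
        {t | ¬ IsWall (γ t) ∧ γ t ∈ Side 1} := by
      rw [Set.disjoint_left]
      rintro t ⟨h1, h2⟩ ⟨_, h3⟩
      exact absurd (side_unique h1 h2 h3) (by decide)
    rcases isPreconnected_Ioo.subset_or_subset (hopen 0) (hopen 1) hdisj (s := Set.Ioo t0 t1)
      (fun t ht => by
        rcases side_cover (γ t) with h' | h'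
        · exact Or.inl ⟨hIoo t ht, h'⟩
        · exact Or.inr ⟨hIoo t ht, h'⟩) with h | h
    · exact ⟨0, fun t ht => (h ht).2⟩
    · exact ⟨1, fun t ht => (h ht).2⟩
  set ρ := min η σ / 2 with hρ
  have hρ0 : 0 < ρ := by
    have := lt_min hη hσ0
    linarith
  have hρη : ρ < η := by
    have := min_le_left η σ
    linarith
  have hρσ : ρ < σ := by
    have := min_le_right η σ
    linarith
  have s1 := (H (γ (t0 + ρ)) (hηd _ (by rw [add_sub_cancel_left, abs_of_pos hρ0]; exact hρη))).2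
  have s2 := (H (γ (t0 + -ρ)) (hηd _ (by
    rw [add_sub_cancel_left, abs_neg, abs_of_pos hρ0]; exact hρη))).2
  have hin1 : t0 + ρ ∈ Set.Ioo t0 t1 := ⟨by linarith, by linarith⟩
  have hin2 : t0 + -ρ + σ ∈ Set.Ioo t0 t1 := ⟨by linarith, by linarith⟩
  have u1 := side_unique (hIoo _ hin1) s1 (hε _ hin1)
  have s3 : γ (t0 + -ρ + σ) ∈ Side ((col m).1 + if F 0 (P m • γ (t0 + -ρ)) < 0 then 1 else 0) := by
    have : γ (t0 + -ρ + σ) = g • γ (t0 + -ρ) := (hgσ _).symm
    rw [this]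
    exact side_G hg s2
  have u2 := side_unique (hIoo _ hin2) s3 (hε _ hin2)
  rw [← u2, hφ', hφ', neg_neg] at u1
  have h1 := hexp ρ hρ0
  rcases lt_or_gt_of_ne hαe with h | h
  · have c1 : α * Real.exp t0 * (Real.exp ρ - Real.exp (-ρ)) < 0 := mul_neg_of_neg_of_pos h h1
    have c2 : ¬ α * Real.exp t0 * (Real.exp (-ρ) - Real.exp ρ) < 0 := by nlinarith
    rw [if_pos c1, if_neg c2] at u1
    have := add_left_cancel u1
    exact absurd this (by decide)
  · have c1 : ¬ α * Real.exp t0 * (Real.exp ρ - Real.exp (-ρ)) < 0 := by nlinarith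
    have c2 : α * Real.exp t0 * (Real.exp (-ρ) - Real.exp ρ) < 0 := by nlinarith
    rw [if_neg c1, if_pos c2] at u1
    have := add_left_cancel u1
    exact absurd this (by decide)

theorem main : ∃ G : Subgroup PGL(2, ℝ), IsSurfaceGroup G ∧ ∃ Γ : Set (Set (Surface G)),
    IsMaximalOneSystem G Γ ∧ (∃ C₀ ∈ Γ, ∀ C ∈ Γ, C ≠ C₀ → Disjoint C C₀) ∧ ¬ Fills G Γ := by
  obtain ⟨Γ, hΓ, hmem⟩ := exists_maximal simple_axis
  have hd : ∀ C ∈ Γ, C ≠ proj G0 '' axis → Disjoint C (proj G0 '' axis) := by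
    intro C hC hne
    exact even (hΓ.1.geodesic C hC) (hΓ.1.meet C hC _ hmem hne)
  refine ⟨G0, G0_surface, Γ, hΓ, ⟨_, hmem, hd⟩, ?_⟩
  refine not_fills G0_surface h_mem (s := 121 / 16) (by norm_num) hom_h axis_simple
    hΓ.1.geodesic (fun C hC => ?_)
  by_cases h : C = proj G0 '' axis
  · exact Or.inl h
  · exact Or.inr (hd C hC h)

end

end Q281.MF
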