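import Pool.Agent.Q281.MF.Ray

/-! A maximal 1-system that contains a geodesic disjoint from all other members does not fill. -/

open UpperHalfPlane Matrix
open scoped MatrixGroups unitInterval

namespace Q281.MF

noncomputable section

lemma proj_eq {G : Subgroup PGL(2, ℝ)} {z w : ℍ} : proj G z = proj G w ↔ ∃ g ∈ G, g • w = z := by
  unfold proj
  rw [Quotient.eq, MulAction.orbitRel_apply, MulAction.mem_orbit_iff]
  constructor
  · rintro ⟨g, hg⟩; exact ⟨g, g.2, hg⟩
  · rintro ⟨g, hg, hg2⟩; exact ⟨⟨g, hg⟩, hg2⟩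

lemma IsGeodesic.smul {G : Subgroup PGL(2, ℝ)} (hG : IsSurfaceGroup G) {L : Set ℍ}
    (hL : IsGeodesic L) {g : PGL(2, ℝ)} (hg : g ∈ G) : IsGeodesic ((fun z => g • z) '' L) := by
  obtain ⟨A, rfl⟩ := hL
  obtain ⟨B, rfl⟩ := hG.orientation g hg
  refine ⟨B * A, ?_⟩
  rw [Set.image_image]
  simp only [toPGL_smul, mul_smul]

lemma conj_image {g k : PGL(2, ℝ)} {L : Set ℍ} :
    (fun z => (g * k * g⁻¹) • z) '' ((fun z => g • z) '' L) =
      (fun z => g • z) '' ((fun z => k • z) '' L) := by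
  rw [Set.image_image, Set.image_image]
  simp only [mul_smul, inv_smul_smul]

lemma simple_translate {G : Subgroup PGL(2, ℝ)} {L : Set ℍ}
    (hL : ∀ g ∈ G, (fun z => g • z) '' L = L ∨ Disjoint ((fun z => g • z) '' L) L)
    {g h : PGL(2, ℝ)} (hg : g ∈ G) (hh : h ∈ G) :
    (fun z => h • z) '' ((fun z => g • z) '' L) = (fun z => g • z) '' L ∨
      Disjoint ((fun z => h • z) '' ((fun z => g • z) '' L)) ((fun z => g • z) '' L) := by
  have e : (fun z => h • z) '' ((fun z => g • z) '' L) =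
      (fun z => g • z) '' ((fun z => (g⁻¹ * h * g) • z) '' L) := by
    rw [Set.image_image, Set.image_image]
    simp only [mul_smul, smul_inv_smul]
  rcases hL (g⁻¹ * h * g) (mul_mem (mul_mem (inv_mem hg) hh) hg) with h1 | h1
  · left; rw [e, h1]
  · right
    rw [e]
    exact (Set.disjoint_image_iff (MulAction.injective g)).mpr h1

/-- the imaginary axis -/
def axis : Set ℍ := {z | z.re = 0}

lemma isGeodesic_axis : IsGeodesic axis := ⟨1, by simp [axis]⟩

lemma Hom.axis {h : PGL(2, ℝ)} {s : ℝ} (hs : 1 < s) (hh : Hom h s) :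
    (fun z => h • z) '' axis = axis := by
  ext z
  rw [mem_image_smul]
  have := (hh.inv (by linarith : s ≠ 0)) z
  unfold Q281.MF.axis
  rw [Set.mem_ofPred_eq, Set.mem_ofPred_eq, this.1]
  have : s⁻¹ ≠ 0 := inv_ne_zero (by linarith)
  simp [this]

lemma Hom.ne_one {h : PGL(2, ℝ)} {s : ℝ} (hs : 1 < s) (hh : Hom h s) : h ≠ 1 := by
  rintro rfl
  have := (hh UpperHalfPlane.I).2
  rw [one_smul] at this
  simp at this
  linarith

/-- the ray is disjoint from all the curves -/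
lemma ray_disjoint {G : Subgroup PGL(2, ℝ)} (hG : IsSurfaceGroup G)
    {h : PGL(2, ℝ)} (hh : h ∈ G) {s : ℝ} (hs : 1 < s) (hhom : Hom h s)
    (haxis : ∀ g ∈ G, (fun z => g • z) '' axis = axis ∨ Disjoint ((fun z => g • z) '' axis) axis)
    {C : Set (Surface G)} (hC : IsSimpleClosedGeodesic G C)
    (hCC : C = proj G '' axis ∨ Disjoint C (proj G '' axis)) {z : ℍ}
    (hz : z.re = slope s * z.im) : proj G z ∉ C := by
  intro hzC
  have hzpos : z.re ≠ 0 := by
    rw [hz]; exact (mul_pos (slope_pos hs) z.im_pos).ne'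
  rcases hCC with hCC | hCC
  · rw [hCC] at hzC
    obtain ⟨w, hw, hwz⟩ := hzC
    obtain ⟨g, hg, hgz⟩ := proj_eq.mp hwz.symm
    have hzM : z ∈ (fun z => g • z) '' axis := ⟨w, hw, hgz⟩
    rcases haxis g hg with h1 | h1
    · rw [h1] at hzM
      exact hzpos hzM
    · refine ray_avoid hG (isGeodesic_axis.smul hG hg) (k := g * h * g⁻¹)
        (mul_mem (mul_mem hg hh) (inv_mem hg)) ?_ ?_ hh hs hhom
        (simple_translate haxis hg hh) ?_ hzM hz
      · intro h2
        have : h = 1 := by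
          have := congrArg (fun x => g⁻¹ * x * g) h2
          simpa [mul_assoc] using this
        exact hhom.ne_one hs this
      · rw [conj_image, hhom.axis hs]
      · intro v hv hv0
        exact Set.disjoint_left.mp h1 hv hv0
  · obtain ⟨L, hL, rfl, ⟨k, hk, hk1, hkL⟩, hsimple⟩ := hC
    obtain ⟨w, hw, hwz⟩ := hzC
    obtain ⟨g, hg, hgz⟩ := proj_eq.mp hwz.symm
    have hzM : z ∈ (fun z => g • z) '' L := ⟨w, hw, hgz⟩
    refine ray_avoid hG (hL.smul hG hg) (k := g * k * g⁻¹)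
        (mul_mem (mul_mem hg hk) (inv_mem hg)) ?_ ?_ hh hs hhom
        (simple_translate hsimple hg hh) ?_ hzM hz
    · intro h2
      have : k = 1 := by
        have := congrArg (fun x => g⁻¹ * x * g) h2
        simpa [mul_assoc] using this
      exact hk1 this
    · rw [conj_image, hkL]
    · rintro v ⟨u, hu, rfl⟩ hv0
      exact Set.disjoint_left.mp hCC ⟨u, hu, rfl⟩ ⟨g • u, hv0, proj_eq.mpr ⟨g, hg, rfl⟩⟩

lemma isCancel {G : Subgroup PGL(2, ℝ)} (hG : IsSurfaceGroup G) : IsCancelSMul G ℍ where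
  right_cancel' g g' z h := by
    have h1 : ((g'⁻¹ * g : G) : PGL(2, ℝ)) • z = z := by
      have h2 : (g : PGL(2, ℝ)) • z = (g' : PGL(2, ℝ)) • z := h
      rw [Subgroup.coe_mul, Subgroup.coe_inv, mul_smul, h2, inv_smul_smul]
    have h3 := hG.free _ (g'⁻¹ * g).2 z h1
    have h4 : g'⁻¹ * g = 1 := Subtype.ext h3
    exact (inv_mul_eq_one.mp h4).symm

lemma isCovering {G : Subgroup PGL(2, ℝ)} (hG : IsSurfaceGroup G) : IsCoveringMap (proj G) := by
  have := hG.disc
  have := isCancel hG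
  have : ContinuousConstSMul G ℍ := ⟨fun g => continuous_const_smul (g : PGL(2, ℝ))⟩
  exact (isQuotientCoveringMap_quotientMk_of_properlyDiscontinuousSMul (G := G) (E := ℍ)).isCoveringMap

/-- the path along the ray -/
def rayPt (s : ℝ) (hs : 1 < s) (t : I) : ℍ :=
  ⟨⟨slope s * (1 + t * (s - 1)), 1 + t * (s - 1)⟩, by
    have : 0 ≤ (t : ℝ) * (s - 1) := mul_nonneg t.2.1 (by linarith)
    show 0 < 1 + (t : ℝ) * (s - 1)
    linarith⟩

lemma continuous_rayPt (s : ℝ) (hs : 1 < s) : Continuous (rayPt s hs) := by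
  refine UpperHalfPlane.isOpenEmbedding_coe.isInducing.continuous_iff.mpr ?_
  have : ((↑) ∘ rayPt s hs : I → ℂ) = fun t : I => (((slope s * (1 + t * (s - 1)) : ℝ) : ℂ) +
      ((1 + t * (s - 1) : ℝ) : ℂ) * Complex.I) := by
    funext t
    apply Complex.ext <;> simp [rayPt]
  rw [this]
  fun_prop

theorem not_fills {G : Subgroup PGL(2, ℝ)} (hG : IsSurfaceGroup G)
    {h : PGL(2, ℝ)} (hh : h ∈ G) {s : ℝ} (hs : 1 < s) (hhom : Hom h s)
    (haxis : ∀ g ∈ G, (fun z => g • z) '' axis = axis ∨ Disjoint ((fun z => g • z) '' axis) axis)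
    {Γ : Set (Set (Surface G))} (hΓ : ∀ C ∈ Γ, IsSimpleClosedGeodesic G C)
    (hd : ∀ C ∈ Γ, C = proj G '' axis ∨ Disjoint C (proj G '' axis)) : ¬ Fills G Γ := by
  intro hf
  set U : Set (Surface G) := (⋃₀ Γ)ᶜ with hU
  have cov := isCovering hG
  have hpc : Continuous (fun t => proj G (rayPt s hs t)) := cov.continuous.comp (continuous_rayPt s hs)
  have hin : ∀ t, proj G (rayPt s hs t) ∈ U := by
    rintro t ⟨C, hC, hzC⟩
    exact ray_disjoint hG hh hs hhom haxis (hΓ C hC) (hd C hC) (z := rayPt s hs t) rfl hzC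
  set x0 := proj G (rayPt s hs 0) with hx0
  obtain ⟨e⟩ := hf x0 (hin 0)
  have hcomp : ∀ t, proj G (rayPt s hs t) ∈ connectedComponentIn U x0 := by
    intro t
    have hpre : IsPreconnected (Set.range (fun t => proj G (rayPt s hs t))) :=
      isPreconnected_range hpc
    have hsub : Set.range (fun t => proj G (rayPt s hs t)) ⊆ U := by
      rintro _ ⟨t, rfl⟩; exact hin t
    exact hpre.subset_connectedComponentIn ⟨0, rfl⟩ hsub ⟨t, rfl⟩
  have hconv : Convex ℝ (Metric.ball (0 : ℂ) 1) := convex_ball _ _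
  have hcontr : ContractibleSpace (Metric.ball (0 : ℂ) 1) :=
    hconv.contractibleSpace ⟨0, Metric.mem_ball_self one_pos⟩
  have hsc : SimplyConnectedSpace (Metric.ball (0 : ℂ) 1) := inferInstance
  have hlp : LocallyPathConnectedSpace (Metric.ball (0 : ℂ) 1) :=
    Metric.isOpen_ball.locallyPathConnectedSpace
  let f : C(Metric.ball (0 : ℂ) 1, Surface G) := ⟨fun y => (e.symm y : Surface G), by fun_prop⟩
  let a0 : Metric.ball (0 : ℂ) 1 := e ⟨x0, hcomp 0⟩
  obtain ⟨F, ⟨hF0, hF⟩, _⟩ := cov.existsUnique_continuousMap_lifts f a0 (rayPt s hs 0)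
    (by simp [f, a0, hx0])
  let Γ' : I → ℍ := fun t => F (e ⟨proj G (rayPt s hs t), hcomp t⟩)
  have hΓ'c : Continuous Γ' := by
    have : Continuous (fun t : I => (⟨proj G (rayPt s hs t), hcomp t⟩ : connectedComponentIn U x0)) :=
      hpc.subtype_mk _
    exact F.continuous.comp (e.continuous.comp this)
  have hcompeq : proj G ∘ Γ' = proj G ∘ rayPt s hs := by
    funext t
    have := congrFun hF (e ⟨proj G (rayPt s hs t), hcomp t⟩)
    simpa [f, Γ'] using this
  have heq := cov.eq_of_comp_eq hΓ'c (continuous_rayPt s hs) hcompeq 0 (by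
    show F (e ⟨proj G (rayPt s hs 0), hcomp 0⟩) = rayPt s hs 0
    exact hF0)
  have h1 := congrFun heq 1
  have hproj : proj G (rayPt s hs 1) = x0 := by
    rw [hx0, proj_eq]
    refine ⟨h, hh, ext' ?_ ?_⟩
    · rw [(hhom _).1]; simp [rayPt, UpperHalfPlane.re]; ring
    · rw [(hhom _).2]; simp [rayPt, UpperHalfPlane.im]
  have h2 : Γ' 1 = rayPt s hs 0 := by
    have : (⟨proj G (rayPt s hs 1), hcomp 1⟩ : connectedComponentIn U x0) = ⟨x0, hcomp 0⟩ :=
      Subtype.ext hproj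
    show F (e ⟨proj G (rayPt s hs 1), hcomp 1⟩) = _
    rw [this]; exact hF0
  rw [h2] at h1
  have h3 := congrArg UpperHalfPlane.im h1
  simp [rayPt, UpperHalfPlane.im] at h3
  linarith

/-- every simple closed geodesic is contained in a maximal 1-system -/
lemma exists_maximal {G : Subgroup PGL(2, ℝ)} {C₀ : Set (Surface G)}
    (hC₀ : IsSimpleClosedGeodesic G C₀) : ∃ Γ, IsMaximalOneSystem G Γ ∧ C₀ ∈ Γ := by
  obtain ⟨Γ, hΓ, hmax⟩ := zorn_subset_nonempty {Γ : Set (Set (Surface G)) | IsOneSystem G Γ}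
    (by
      intro c hc hch hne
      refine ⟨⋃₀ c, ⟨?_, ?_⟩, fun s hs => Set.subset_sUnion_of_mem hs⟩
      · rintro C ⟨Γ, hΓ, hC⟩
        exact (hc hΓ).geodesic C hC
      · rintro C ⟨Γ, hΓ, hC⟩ C' ⟨Γ', hΓ', hC'⟩ hCC
        rcases hch.total hΓ hΓ' with h | h
        · exact (hc hΓ').meet C (h hC) C' hC' hCC
        · exact (hc hΓ).meet C hC C' (h hC') hCC)
    {C₀} ⟨by rintro _ rfl; exact hC₀, by rintro _ rfl _ rfl h; exact absurd rfl h⟩
  refine ⟨Γ, ⟨hmax.prop, fun Δ hΔ hsub => ?_⟩, hΓ rfl⟩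
  exact subset_antisymm (hmax.le_of_ge hΔ hsub) hsub

end

end Q281.MF
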