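import Pool.Agent.Q281.MF.General

/-! The surface group. -/

open UpperHalfPlane Matrix
open scoped MatrixGroups

namespace Q281.MF

noncomputable section

/-- the group of the words of colour zero -/
def G0 : Subgroup PGL(2, ℝ) where
  carrier := {g | ∃ l, P l = g ∧ col l = 0}
  one_mem' := ⟨[], rfl, rfl⟩
  mul_mem' := by
    rintro _ _ ⟨l, rfl, hl⟩ ⟨m, rfl, hm⟩
    exact ⟨l ++ m, P_append l m, by rw [col_append, hl, hm, add_zero]⟩
  inv_mem' := by
    rintro _ ⟨l, rfl, hl⟩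
    exact ⟨l.reverse, P_reverse l, by rw [col_reverse, hl]⟩

lemma mem_G0 {g : PGL(2, ℝ)} : g ∈ G0 ↔ ∃ l, P l = g ∧ col l = 0 := Iff.rfl

lemma isW_of_mem {g : PGL(2, ℝ)} (hg : g ∈ G0) : IsW g := by
  obtain ⟨l, hl, _⟩ := hg; exact ⟨l, hl⟩

lemma closure_word {S : Set (Fin 5)} {s : PGL(2, ℝ)} (hs : s ∈ Subgroup.closure (r '' S)) :
    ∃ l, (∀ i ∈ l, i ∈ S) ∧ P l = s := by
  induction hs using Subgroup.closure_induction with
  | mem x hx =>
    obtain ⟨i, hi, rfl⟩ := hx
    exact ⟨[i], by simpa using hi, by simp⟩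
  | one => exact ⟨[], by simp, rfl⟩
  | mul x y _ _ hx hy =>
    obtain ⟨l, hl, rfl⟩ := hx
    obtain ⟨m, hm, rfl⟩ := hy
    refine ⟨l ++ m, ?_, P_append l m⟩
    intro i hi
    rcases List.mem_append.mp hi with h | h
    · exact hl i h
    · exact hm i h
  | inv x _ hx =>
    obtain ⟨l, hl, rfl⟩ := hx
    exact ⟨l.reverse, by simpa using hl, P_reverse l⟩

lemma G0_orientation (g : PGL(2, ℝ)) (hg : g ∈ G0) :
    ∃ A : SL(2, ℝ), g = SpecialLinearGroup.toPGL A := by
  obtain ⟨l, rfl, hl⟩ := hg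
  obtain ⟨a, b, c, e, h1, h2⟩ := dw_eq l
  rw [hl] at h2
  have hc : (c : ZMod 2) = 0 := (congrArg (fun x => x.2.2) h2).symm
  have hb : (b : ZMod 2) = 0 := by
    have : (b : ZMod 2) + c = 0 := (congrArg (fun x => x.2.1) h2).symm
    rwa [hc, add_zero] at this
  have ha : (a : ZMod 2) = 0 := by
    have : (a : ZMod 2) + b = 0 := (congrArg (fun x => x.1) h2).symm
    rwa [hb, add_zero] at this
  have hae : Even a := (ZMod.natCast_eq_zero_iff_even).mp ha
  rw [hae.neg_one_pow] at h1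
  have hpos : 0 < dw l := by rw [h1]; positivity
  set M := toR (Mq l) with hM
  have hdet : M.det.val = (dw l : ℝ) := by
    rw [← Mq_det, hM, GeneralLinearGroup.val_det_apply, GeneralLinearGroup.val_det_apply,
      Matrix.det_fin_two, Matrix.det_fin_two]
    simp [toR]
  have hD : (0 : ℝ) < M.det.val := by rw [hdet]; exact_mod_cast hpos
  set d := √(M.det.val) with hd
  have hd0 : 0 < d := Real.sqrt_pos.mpr hD
  have hd2 : d ^ 2 = M.det.val := Real.sq_sqrt hD.le
  have hAdet : (d⁻¹ • (M : Matrix (Fin 2) (Fin 2) ℝ)).det = 1 := by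
    rw [Matrix.det_smul, Fintype.card_fin, ← GeneralLinearGroup.val_det_apply, ← hd2]
    field_simp
  refine ⟨⟨d⁻¹ • (M : Matrix (Fin 2) (Fin 2) ℝ), hAdet⟩, ?_⟩
  rw [P_eq, SpecialLinearGroup.toPGL, MonoidHom.comp_apply, ProjGenLinGroup.mk_eq_mk_iff]
  refine ⟨Units.mk0 d⁻¹ (inv_ne_zero hd0.ne'), ?_⟩
  ext i j
  simp [mul_comm]
  exact Or.inl rfl

lemma G0_free (g : PGL(2, ℝ)) (hg : g ∈ G0) (z : ℍ) (hz : g • z = z) : g = 1 := by
  obtain ⟨w, ⟨m, rfl⟩, hp⟩ := tiles_cover z
  obtain ⟨l, rfl, hl⟩ := hg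
  have hs : P (m ++ l ++ m.reverse) • (P m • z) = P m • z := by
    rw [P_append, P_append, P_reverse, mul_smul, mul_smul, inv_smul_smul, hz]
  have hcol : col (m ++ l ++ m.reverse) = 0 := by
    rw [col_append, col_append, col_reverse, hl, add_zero, col_add_self]
  obtain ⟨j, -, hj⟩ := sfd_four (IsW.P (m ++ l ++ m.reverse)) hp (by rw [hs]; exact hp)
  have h1 : P (m ++ l ++ m.reverse) = 1 := by
    rcases hj with h | h | h | h
    · exact h
    · exfalso
      have h' : P (m ++ l ++ m.reverse) = P [j] := by rw [h]; simp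
      have := col_congr h'
      rw [hcol] at this
      revert this; clear h h'; revert j; decide
    · exfalso
      have h' : P (m ++ l ++ m.reverse) = P [j + 1] := by rw [h]; simp
      have := col_congr h'
      rw [hcol] at this
      revert this; clear h h'; revert j; decide
    · exfalso
      have h' : P (m ++ l ++ m.reverse) = P [j, j + 1] := by rw [h]; simp
      have := col_congr h'
      rw [hcol] at this
      revert this; clear h h'; revert j; decide
  rw [P_append, P_append, P_reverse] at h1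
  have := congrArg (fun x => (P m)⁻¹ * x * P m) h1
  simpa [mul_assoc] using this

lemma G0_disc : ProperlyDiscontinuousSMul G0 ℍ where
  finite_disjoint_inter_image := by
    intro K L hK hL
    have h := fin_disc hK hL
    have : {γ : G0 | ((fun x => γ • x) '' K ∩ L).Nonempty} ⊆
        (fun γ : G0 => (γ : PGL(2, ℝ))) ⁻¹' {g | IsW g ∧ ∃ y ∈ K, g • y ∈ L} := by
      rintro γ ⟨_, ⟨y, hy, rfl⟩, hyL⟩
      exact ⟨isW_of_mem γ.2, y, hy, hyL⟩
    exact (h.preimage (Subtype.coe_injective.injOn)).subset this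

/-- words realising all colours -/
def tw (x : ZMod 2 × ZMod 2 × ZMod 2) : List (Fin 5) :=
  (if x.1 = 1 then [0] else []) ++ (if x.2.1 = 1 then [1] else []) ++
    (if x.2.2 = 1 then [4] else [])

lemma col_tw (x : ZMod 2 × ZMod 2 × ZMod 2) : col (tw x) = x := by
  revert x; decide

lemma G0_cocompact : CompactSpace (MulAction.orbitRel.Quotient G0 ℍ) := by
  have hK : IsCompact (⋃ x : ZMod 2 × ZMod 2 × ZMod 2, (fun z => (P (tw x))⁻¹ • z) '' Pent) :=
    isCompact_iUnion fun x => isCompact_Pent.image (continuous_const_smul _)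
  have hc : Continuous (proj G0) := continuous_quotient_mk'
  refine ⟨?_⟩
  have : (Set.univ : Set (Surface G0)) =
      proj G0 '' (⋃ x : ZMod 2 × ZMod 2 × ZMod 2, (fun z => (P (tw x))⁻¹ • z) '' Pent) := by
    symm
    rw [Set.eq_univ_iff_forall]
    intro y
    induction y using Quotient.inductionOn with
    | h z =>
      obtain ⟨w, ⟨l, rfl⟩, hp⟩ := tiles_cover z
      refine ⟨(P (tw (col l)))⁻¹ • (P l • z), Set.mem_iUnion.mpr ⟨col l, _, hp, rfl⟩, ?_⟩
      refine proj_eq.mpr ⟨(P (tw (col l)))⁻¹ * P l, ?_, by rw [mul_smul]⟩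
      refine ⟨(tw (col l)).reverse ++ l, by rw [P_append, P_reverse], ?_⟩
      rw [col_append, col_reverse, col_tw, col_add_self]
  rw [this]
  exact hK.image hc

theorem G0_surface : IsSurfaceGroup G0 :=
  ⟨G0_orientation, G0_free, G0_disc, G0_cocompact⟩

/-- the homothety in the group -/
lemma hom_P14 : Hom (P [1, 4]) (11 / 4) := by
  intro z
  have hy := z.im_pos
  have e1 : ∀ w : ℍ, (r 1 • w).re = 3 * w.re / (w.re ^ 2 + w.im ^ 2) ∧
      (r 1 • w).im = 3 * w.im / (w.re ^ 2 + w.im ^ 2) := by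
    intro w
    rw [r, pglMk_smul, re_smul', im_smul', toR_det]
    simp [toR_gq, Rm, dt]
  have e4 : ∀ w : ℍ, (r 4 • w).re = 12 / 11 * w.re / (w.re ^ 2 + w.im ^ 2) ∧
      (r 4 • w).im = 12 / 11 * w.im / (w.re ^ 2 + w.im ^ 2) := by
    intro w
    have hw := w.im_pos
    have hN : 0 < w.re ^ 2 + w.im ^ 2 := by positivity
    rw [r, pglMk_smul, re_smul', im_smul', toR_det]
    simp [toR_gq, Rm, dt]
    constructor
    · field_simp
    · field_simp; norm_num
  have hN : 0 < z.re ^ 2 + z.im ^ 2 := by positivity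
  simp only [P_cons, P_nil, mul_one, mul_smul]
  rw [(e1 _).1, (e1 _).2, (e4 _).1, (e4 _).2]
  have : (12 / 11 * z.re / (z.re ^ 2 + z.im ^ 2)) ^ 2 +
      (12 / 11 * z.im / (z.re ^ 2 + z.im ^ 2)) ^ 2 = (12 / 11) ^ 2 / (z.re ^ 2 + z.im ^ 2) := by
    field_simp
  rw [this]
  constructor
  · field_simp; ring
  · field_simp; ring

lemma hom_h : Hom (P [1, 4, 1, 4]) (121 / 16) := by
  have h := hom_P14.pow 2
  have e : P [1, 4] ^ 2 = P [1, 4, 1, 4] := by rw [sq, ← P_append]; rfl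
  have e2 : (11 / 4 : ℝ) ^ 2 = 121 / 16 := by norm_num
  rwa [e, e2] at h

lemma h_mem : P [1, 4, 1, 4] ∈ G0 := ⟨_, rfl, by decide⟩

end

end Q281.MF
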