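import Pool.Agent.Q281.MF.Topo

/-! The tiles cover the plane, local finiteness. -/

open UpperHalfPlane Matrix
open scoped MatrixGroups

namespace Q281.MF

noncomputable section

lemma im_lower {z : ℍ} (hz : z ∈ Pent) : 1 / 4 ≤ z.im := by
  have h0 := (F_nonneg_iff 0 z).mp (hz 0)
  have h1 := (F_nonneg_iff 1 z).mp (hz 1)
  have h2 := (F_nonneg_iff 2 z).mp (hz 2)
  have h3 := (F_nonneg_iff 3 z).mp (hz 3)
  have h4 := (F_nonneg_iff 4 z).mp (hz 4)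
  have hy := z.im_pos
  simp [ca, cb, cc] at h0 h1 h2 h3 h4
  generalize z.re = x at *
  generalize z.im = y at *
  obtain ⟨N, hN⟩ : ∃ N, N = x ^ 2 + y ^ 2 := ⟨_, rfl⟩
  rw [← hN] at h2 h3 h4
  have h1' : N ≤ 3 := by rw [hN]; linarith
  have hx1 : x ≤ (11 * N + 12) / 24 := by linarith
  have hx2 : x ≤ (4 * N + 12) / 15 := by linarith
  have s1 : x ^ 2 ≤ ((11 * N + 12) / 24) ^ 2 := pow_le_pow_left₀ h0 hx1 2
  have s2 : x ^ 2 ≤ ((4 * N + 12) / 15) ^ 2 := pow_le_pow_left₀ h0 hx2 2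
  have hN4 : 12 / 11 ≤ N := by linarith
  have key : (1 / 4) ^ 2 ≤ y ^ 2 := by
    by_cases hc : N ≤ 8 / 5
    · nlinarith [mul_nonneg (sub_nonneg.mpr hN4) (sub_nonneg.mpr hc)]
    · nlinarith [mul_nonneg (sub_nonneg.mpr (not_le.mp hc).le) (sub_nonneg.mpr h1')]
  exact (pow_le_pow_iff_left₀ (by norm_num) hy.le (by norm_num)).mp key

lemma normSq_upper {z : ℍ} (hz : z ∈ Pent) : z.re ^ 2 + z.im ^ 2 ≤ 3 := by
  have h1 := (F_nonneg_iff 1 z).mp (hz 1)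
  simp [ca, cb, cc] at h1
  linarith

lemma dist_I_le {z : ℍ} (hz : z ∈ Pent) : dist z I ≤ 17 := by
  have h1 := im_lower hz
  have h2 := normSq_upper hz
  have h3 : Real.cosh (dist z I) ≤ 9 := by
    rw [UpperHalfPlane.cosh_dist, Complex.dist_eq]
    have : ‖(z : ℂ) - (I : ℍ)‖ ^ 2 = z.re ^ 2 + (z.im - 1) ^ 2 := by
      rw [← Complex.normSq_eq_norm_sq, Complex.normSq_apply]
      simp
      ring
    rw [this]
    have h4 : z.re ^ 2 + (z.im - 1) ^ 2 ≤ 4 := by nlinarith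
    have h5 : (I : ℍ).im = 1 := by simp
    rw [h5]
    have : (z.re ^ 2 + (z.im - 1) ^ 2) / (2 * z.im * 1) ≤ 8 := by
      rw [div_le_iff₀ (by positivity)]; linarith
    linarith
  have h4 : (9 : ℝ) ≤ Real.cosh 17 := by
    rw [Real.cosh_eq]
    have := Real.add_one_le_exp (17 : ℝ)
    have := Real.exp_pos (-17)
    linarith
  have h5 := Real.cosh_le_cosh.mp (h3.trans h4)
  rwa [abs_of_nonneg dist_nonneg, abs_of_nonneg (by norm_num)] at h5

lemma isCompact_Pent : IsCompact Pent :=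
  (isCompact_closedBall (I : ℍ) 17).of_isClosed_subset isClosed_Pent
    fun _ hz => Metric.mem_closedBall.mpr (dist_I_le hz)

lemma exists_mem_Pent : ∃ z, z ∈ Pent := by
  refine ⟨⟨⟨0, 3 / 2⟩, by norm_num⟩, fun k => ?_⟩
  rw [F_nonneg_iff]
  have h1 : (UpperHalfPlane.mk ⟨0, 3 / 2⟩ (by norm_num) : ℍ).re = 0 := rfl
  have h2 : (UpperHalfPlane.mk ⟨0, 3 / 2⟩ (by norm_num) : ℍ).im = 3 / 2 := rfl
  rw [h1, h2]
  fin_cases k <;> simp [ca, cb, cc] <;> norm_num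

lemma IsW.P (l : List (Fin 5)) : IsW (P l) := ⟨l, rfl⟩

lemma uniform_cover : ∃ ε > 0, ∀ p ∈ Pent, ∀ z, dist z p < ε → ∃ w, IsW w ∧ w • z ∈ Pent := by
  choose! δ hδ hi using fun p hp => local_cover (p := p) hp
  obtain ⟨ε, hε, h⟩ := lebesgue_number_lemma_of_metric (s := Pent)
    (c := fun p : Pent => Metric.ball (p : ℍ) (δ p)) isCompact_Pent
    (fun p => Metric.isOpen_ball) (fun p hp => Set.mem_iUnion.mpr
      ⟨⟨p, hp⟩, Metric.mem_ball_self (hδ p hp)⟩)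
  refine ⟨ε, hε, fun p hp z hz => ?_⟩
  obtain ⟨q, hq⟩ := h p hp
  obtain ⟨i, _, h2⟩ := hi q q.2
  exact ⟨_, IsW.P _, (h2 z (hq (Metric.mem_ball.mpr hz))).2.2⟩

/-- every point lies in a tile -/
lemma tiles_cover (z : ℍ) : ∃ w, IsW w ∧ w • z ∈ Pent := by
  obtain ⟨ε, hε, h⟩ := uniform_cover
  let T : Set ℍ := {z | ∃ w, IsW w ∧ w • z ∈ Pent}
  have hb : ∀ z ∈ T, ∀ y, dist y z < ε → y ∈ T := by
    rintro z ⟨w, hw, hz⟩ y hy
    obtain ⟨v, hv, hv2⟩ := h (w • z) hz (w • y) (by rwa [dist_pgl])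
    exact ⟨v * w, hv.mul hw, by rwa [mul_smul]⟩
  have ho : IsOpen T := Metric.isOpen_iff.mpr fun z hz =>
    ⟨ε, hε, fun y hy => hb z hz y (Metric.mem_ball.mp hy)⟩
  have hc : IsClosed T := by
    rw [← isOpen_compl_iff, Metric.isOpen_iff]
    refine fun z hz => ⟨ε, hε, fun y hy hyT => hz (hb y hyT z ?_)⟩
    rw [dist_comm]; exact Metric.mem_ball.mp hy
  have hn : T.Nonempty := by
    obtain ⟨p, hp⟩ := exists_mem_Pent
    exact ⟨p, 1, IsW.one, by rwa [one_smul]⟩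
  have := IsClopen.eq_univ ⟨hc, ho⟩ hn
  have hz : z ∈ T := by rw [this]; trivial
  exact hz

lemma r_pow (i : Fin 5) (a : ℕ) : r i ^ a = 1 ∨ r i ^ a = r i := by
  rcases Nat.even_or_odd a with h | h
  · obtain ⟨b, rfl⟩ := h
    left; rw [← two_mul, pow_mul, sq, r_sq, one_pow]
  · obtain ⟨b, rfl⟩ := h
    right; rw [pow_succ, pow_mul, sq, r_sq, one_pow, one_mul]

lemma closure_pair {s : PGL(2, ℝ)} {j : Fin 5}
    (hs : s ∈ Subgroup.closure ({r j, r (j + 1)} : Set PGL(2, ℝ))) :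
    ∃ a b : ℕ, s = r j ^ a * r (j + 1) ^ b := by
  have hc : Commute (r j) (r (j + 1)) := r_comm j
  induction hs using Subgroup.closure_induction with
  | mem x hx =>
    rcases hx with rfl | rfl
    · exact ⟨1, 0, by simp⟩
    · exact ⟨0, 1, by simp⟩
  | one => exact ⟨0, 0, by simp⟩
  | mul x y _ _ hx hy =>
    obtain ⟨a, b, rfl⟩ := hx
    obtain ⟨c, d, rfl⟩ := hy
    refine ⟨a + c, b + d, ?_⟩
    have := (hc.pow_pow c b).eq
    rw [pow_add, pow_add, mul_assoc, ← mul_assoc (r (j + 1) ^ b), ← this]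
    group
  | inv x _ hx =>
    obtain ⟨a, b, rfl⟩ := hx
    refine ⟨a, b, ?_⟩
    rw [_root_.mul_inv_rev, ← inv_pow, ← inv_pow, r_inv, r_inv]
    exact ((hc.pow_pow a b).eq).symm

lemma closure_four {s : PGL(2, ℝ)} {j : Fin 5}
    (hs : s ∈ Subgroup.closure ({r j, r (j + 1)} : Set PGL(2, ℝ))) :
    s = 1 ∨ s = r j ∨ s = r (j + 1) ∨ s = r j * r (j + 1) := by
  obtain ⟨a, b, rfl⟩ := closure_pair hs
  rcases r_pow j a with h | h <;> rcases r_pow (j + 1) b with h' | h' <;> rw [h, h'] <;> simp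

/-- the finite set of isometries mapping some point of the pentagon into the pentagon -/
lemma sfd_four {s : PGL(2, ℝ)} (hs : IsW s) {p : ℍ} (hp : p ∈ Pent) (h : s • p ∈ Pent) :
    ∃ j, (∀ k, F k p = 0 → k = j ∨ k = j + 1) ∧
      (s = 1 ∨ s = r j ∨ s = r (j + 1) ∨ s = r j * r (j + 1)) := by
  obtain ⟨j, hj⟩ := stab_cases hp
  refine ⟨j, hj, closure_four (Subgroup.closure_mono ?_ (sfd _ s hs rfl p hp h).2)⟩
  rintro _ ⟨k, hk, rfl⟩
  rcases hj k hk with rfl | rfl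
  · left; rfl
  · right; rfl

/-- finite set -/
def Four : Set PGL(2, ℝ) := ⋃ j : Fin 5, {1, r j, r (j + 1), r j * r (j + 1)}

lemma Four_finite : Four.Finite := Set.finite_iUnion fun j => by simp

lemma P_flip_mem (i : Fin 5) (z : ℍ) : P (flip i z) ∈ Four := by
  refine Set.mem_iUnion.mpr ⟨i, ?_⟩
  unfold flip
  split_ifs <;> simp

lemma fin_tiles (z : ℍ) : ∃ ε > 0, {v | IsW v ∧ ∃ y, dist y z < ε ∧ v • y ∈ Pent}.Finite := by
  obtain ⟨w, hw, hp⟩ := tiles_cover z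
  obtain ⟨δ, hδ, i, _, h⟩ := local_cover hp
  refine ⟨δ, hδ, ?_⟩
  refine (Set.Finite.image2 (fun s u => s * u * w) Four_finite Four_finite).subset ?_
  rintro v ⟨hv, y, hy, hvy⟩
  have h1 := (h (w • y) (by rwa [dist_pgl])).2.2
  set u := P (flip i (w • y)) with hu
  have hs : IsW (v * w⁻¹ * u⁻¹) := (hv.mul hw.inv).mul (IsW.P _).inv
  have h2 : (v * w⁻¹ * u⁻¹) • (u • w • y) = v • y := by
    rw [← mul_smul, ← mul_smul]; congr 1; group
  obtain ⟨j, _, hj⟩ := sfd_four hs h1 (by rw [h2]; exact hvy)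
  refine ⟨v * w⁻¹ * u⁻¹, Set.mem_iUnion.mpr ⟨j, by simpa using hj⟩, u, P_flip_mem _ _, ?_⟩
  group

lemma fin_compact {K : Set ℍ} (hK : IsCompact K) : {v | IsW v ∧ ∃ y ∈ K, v • y ∈ Pent}.Finite := by
  choose ε hε hf using fin_tiles
  obtain ⟨t, ht⟩ := hK.elim_finite_subcover (fun z : ℍ => Metric.ball z (ε z))
    (fun z => Metric.isOpen_ball) (fun z _ => Set.mem_iUnion.mpr ⟨z, Metric.mem_ball_self (hε z)⟩)
  refine (Set.Finite.biUnion t.finite_toSet fun z _ => hf z).subset ?_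
  rintro v ⟨hv, y, hy, hvy⟩
  obtain ⟨z, hz, hyz⟩ := Set.mem_iUnion₂.mp (ht hy)
  exact Set.mem_iUnion₂.mpr ⟨z, hz, hv, y, Metric.mem_ball.mp hyz, hvy⟩

lemma fin_disc {K L : Set ℍ} (hK : IsCompact K) (hL : IsCompact L) :
    {g | IsW g ∧ ∃ y ∈ K, g • y ∈ L}.Finite := by
  refine (Set.Finite.image2 (fun v u => v⁻¹ * u) (fin_compact hL) (fin_compact hK)).subset ?_
  rintro g ⟨hg, y, hy, hgy⟩
  obtain ⟨v, hv, hvy⟩ := tiles_cover (g • y)
  exact ⟨v, ⟨hv, _, hgy, hvy⟩, v * g, ⟨hv.mul hg, y, hy, by rwa [mul_smul]⟩, by group⟩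

end

end Q281.MF
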