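import Pool.Agent.Q281.MF.Defs
import Pool.Agent.Q281.MF.Tile

/-! Geodesics, their equations, and local finiteness of the translates of a periodic geodesic. -/

open UpperHalfPlane Matrix
open scoped MatrixGroups

namespace Q281.MF

noncomputable section

lemma toPGL_smul (A : SL(2, ℝ)) (z : ℍ) : SpecialLinearGroup.toPGL A • z = A • z := by
  rw [SpecialLinearGroup.toPGL, MonoidHom.comp_apply, pglMk_smul]
  rw [MulAction.compHom_smul_def]
  congr 1

lemma re_SL (A : SL(2, ℝ)) (z : ℍ) :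
    (A • z).re = (A 0 0 * A 1 0 * (z.re ^ 2 + z.im ^ 2) + (A 0 0 * A 1 1 + A 0 1 * A 1 0) * z.re
      + A 0 1 * A 1 1) / ((A 1 0 * z.re + A 1 1) ^ 2 + A 1 0 ^ 2 * z.im ^ 2) := by
  have := re_smul' (SpecialLinearGroup.mapGL ℝ A) z
  rw [MulAction.compHom_smul_def]
  simpa using this

lemma im_SL (A : SL(2, ℝ)) (z : ℍ) :
    (A • z).im = z.im / ((A 1 0 * z.re + A 1 1) ^ 2 + A 1 0 ^ 2 * z.im ^ 2) := by
  have := im_smul' (SpecialLinearGroup.mapGL ℝ A) z
  rw [MulAction.compHom_smul_def]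
  simpa using this

lemma D_SL (A : SL(2, ℝ)) (z : ℍ) :
    0 < (A 1 0 * z.re + A 1 1) ^ 2 + A 1 0 ^ 2 * z.im ^ 2 := by
  have := D_pos (SpecialLinearGroup.mapGL ℝ A) z
  simpa using this

lemma det_SL (A : SL(2, ℝ)) : A 0 0 * A 1 1 - A 0 1 * A 1 0 = 1 := by
  have := A.det_coe
  rwa [Matrix.det_fin_two] at this

/-- equation of a geodesic -/
lemma geod_eq {M : Set ℍ} (hM : IsGeodesic M) : ∃ a b c : ℝ, b ^ 2 - 4 * a * c = 1 ∧
    ∀ z : ℍ, z ∈ M ↔ a * (z.re ^ 2 + z.im ^ 2) + b * z.re + c = 0 := by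
  obtain ⟨A, rfl⟩ := hM
  refine ⟨-(A 1 1 * A 1 0), A 0 0 * A 1 1 + A 0 1 * A 1 0, -(A 0 1 * A 0 0), ?_, fun z => ?_⟩
  · have := det_SL A
    linear_combination (A 0 0 * A 1 1 - A 0 1 * A 1 0 + 1) * this
  · have h1 : z ∈ (fun z : ℍ => A • z) '' {z | z.re = 0} ↔ (A⁻¹ • z).re = 0 := by
      constructor
      · rintro ⟨w, hw, rfl⟩
        simpa using hw
      · intro h
        exact ⟨A⁻¹ • z, h, by simp⟩
    rw [h1, re_SL, div_eq_zero_iff]
    have hD := D_SL A⁻¹ z
    have e : A⁻¹ 0 0 = A 1 1 ∧ A⁻¹ 0 1 = - A 0 1 ∧ A⁻¹ 1 0 = - A 1 0 ∧ A⁻¹ 1 1 = A 0 0 := by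
      rw [Matrix.SpecialLinearGroup.SL2_inv_expl]
      simp
    obtain ⟨e1, e2, e3, e4⟩ := e
    constructor
    · rintro (h | h)
      · rw [e1, e2, e3, e4] at h
        linear_combination h
      · exact absurd h hD.ne'
    · intro h
      left
      rw [e1, e2, e3, e4]
      linear_combination h

/-- parametrisation of the imaginary axis -/
def iE (t : ℝ) : ℍ := ⟨⟨0, Real.exp t⟩, Real.exp_pos t⟩

@[simp] lemma iE_re (t : ℝ) : (iE t).re = 0 := rfl
@[simp] lemma iE_im (t : ℝ) : (iE t).im = Real.exp t := rfl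

lemma eq_iE {z : ℍ} (hz : z.re = 0) : z = iE (Real.log z.im) :=
  ext' (by simpa using hz) (by rw [iE_im, Real.exp_log z.im_pos])

lemma continuous_iE : Continuous iE := (isometry_vertical_line 0).continuous

/-- an orientation preserving isometry preserving the axis has a fixed point on it or is a
translation along it -/
lemma axis_elem (B : SL(2, ℝ)) (hB : ∀ t, (B • iE t).re = 0) :
    (∃ t, B • iE t = iE t) ∨ ∃ τ ≠ 0, ∀ t, B • iE t = iE (t + τ) := by
  have hd := det_SL B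
  have key : ∀ t, B 0 0 * B 1 0 * (Real.exp t) ^ 2 + B 0 1 * B 1 1 = 0 := by
    intro t
    have h := hB t
    rw [re_SL, div_eq_zero_iff] at h
    rcases h with h | h
    · simpa using h
    · exact absurd h (D_SL B (iE t)).ne'
  have k0 := key 0
  have k1 := key (Real.log 2)
  rw [Real.exp_zero] at k0
  rw [Real.exp_log (by norm_num)] at k1
  have h1 : B 0 0 * B 1 0 = 0 := by linarith
  have h2 : B 0 1 * B 1 1 = 0 := by linarith
  rcases mul_eq_zero.mp h1 with h | h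
  · -- B 0 0 = 0
    have h3 : B 0 1 * B 1 0 = -1 := by rw [h] at hd; linarith
    have h4 : B 0 1 ≠ 0 := by intro h0; rw [h0] at h3; norm_num at h3
    have h5 : B 1 1 = 0 := (mul_eq_zero.mp h2).resolve_left h4
    left
    refine ⟨Real.log |B 0 1|, ext' (by rw [hB]; rfl) ?_⟩
    rw [im_SL, iE_im, iE_re, Real.exp_log (abs_pos.mpr h4), h5, sq_abs]
    have h6 : B 1 0 ≠ 0 := by intro h0; rw [h0] at h3; norm_num at h3
    have h7 : B 1 0 ^ 2 * B 0 1 ^ 2 = 1 := by
      linear_combination (B 0 1 * B 1 0 - 1) * h3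
    rw [mul_zero, add_zero, h7]; ring
  · -- B 1 0 = 0
    have h3 : B 0 0 * B 1 1 = 1 := by rw [h] at hd; linarith
    have h4 : B 1 1 ≠ 0 := by intro h0; rw [h0] at h3; norm_num at h3
    have h5 : B 0 1 = 0 := (mul_eq_zero.mp h2).resolve_right h4
    have hB2 : ∀ t, B • iE t = iE (t + -Real.log (B 1 1 ^ 2)) := by
      intro t
      refine ext' (by rw [hB]; rfl) ?_
      rw [im_SL, iE_im, iE_re, iE_im, h, Real.exp_add, Real.exp_neg,
        Real.exp_log (by positivity)]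
      ring
    by_cases h6 : Real.log (B 1 1 ^ 2) = 0
    · left
      refine ⟨0, ?_⟩
      rw [hB2, h6]; simp
    · right
      exact ⟨_, neg_ne_zero.mpr h6, hB2⟩

/-- a periodic geodesic has a translation among its stabiliser -/
lemma exists_translation {G : Subgroup PGL(2, ℝ)} (hG : IsSurfaceGroup G) {A : SL(2, ℝ)}
    {M : Set ℍ} (hM : M = (fun z : ℍ => A • z) '' {z | z.re = 0}) {k : PGL(2, ℝ)} (hk : k ∈ G)
    (hk1 : k ≠ 1) (hkM : (fun z => k • z) '' M = M) :
    ∃ m ∈ G, ∃ τ > 0, (fun z => m • z) '' M = M ∧ ∀ t, m • (A • iE t) = A • iE (t + τ) := by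
  obtain ⟨K, hK⟩ := hG.orientation k hk
  have hmem : ∀ t, (A • iE t : ℍ) ∈ M := fun t => by rw [hM]; exact ⟨iE t, rfl, rfl⟩
  have hact : ∀ t, k • (A • iE t) = A • ((A⁻¹ * K * A) • iE t) := by
    intro t
    rw [hK, toPGL_smul, ← mul_smul, ← mul_smul]
    congr 1
    group
  have hB : ∀ t, ((A⁻¹ * K * A) • iE t).re = 0 := by
    intro t
    have h1 : k • (A • iE t) ∈ M := by rw [← hkM]; exact ⟨_, hmem t, rfl⟩
    rw [hact, hM] at h1
    obtain ⟨w, hw, hw2⟩ := h1
    have : w = (A⁻¹ * K * A) • iE t := by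
      simpa using hw2
    rw [← this]; exact hw
  rcases axis_elem _ hB with ⟨t, ht⟩ | ⟨τ, hτ, h⟩
  · exfalso
    refine hk1 (hG.free k hk (A • iE t) ?_)
    rw [hact, ht]
  · have hk2 : ∀ t, k • (A • iE t) = A • iE (t + τ) := fun t => by rw [hact, h]
    rcases lt_or_gt_of_ne hτ with h0 | h0
    · refine ⟨k⁻¹, inv_mem hk, -τ, by linarith, ?_, fun t => ?_⟩
      · conv_lhs => rw [← hkM]
        rw [Set.image_image]
        simp
      · rw [inv_smul_eq_iff, hk2]
        congr 2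
        ring
    · exact ⟨k, hk, τ, h0, hkM, hk2⟩

lemma zpow_translation {A : SL(2, ℝ)} {m : PGL(2, ℝ)} {τ : ℝ}
    (h : ∀ t, m • (A • iE t) = A • iE (t + τ)) (n : ℤ) (t : ℝ) :
    m ^ n • (A • iE t) = A • iE (t + n * τ) := by
  induction n using Int.induction_on generalizing t with
  | zero => simp
  | succ n ih =>
    rw [_root_.zpow_add, zpow_one, mul_smul, h, ih]
    congr 2
    push_cast; ring
  | pred n ih =>
    rw [_root_.zpow_sub, zpow_one, mul_smul]
    have : m⁻¹ • (A • iE t) = A • iE (t - τ) := by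
      rw [inv_smul_eq_iff, h]
      congr 2; ring
    rw [this, ih]
    congr 2
    push_cast; ring

lemma zpow_image {m : PGL(2, ℝ)} {M : Set ℍ} (h : (fun z => m • z) '' M = M) (n : ℤ) :
    (fun z => m ^ n • z) '' M = M := by
  induction n using Int.induction_on with
  | zero => simp
  | succ n ih =>
    rw [_root_.zpow_add, zpow_one]
    have : (fun z : ℍ => (m ^ (n : ℤ) * m) • z) '' M =
        (fun z => m ^ (n : ℤ) • z) '' ((fun z => m • z) '' M) := by
      rw [Set.image_image]; simp only [mul_smul]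
    rw [this, h, ih]
  | pred n ih =>
    rw [_root_.zpow_sub, zpow_one]
    have : (fun z : ℍ => (m ^ (-(n : ℤ)) * m⁻¹) • z) '' M =
        (fun z => m ^ (-(n : ℤ)) • z) '' ((fun z => m⁻¹ • z) '' M) := by
      rw [Set.image_image]; simp only [mul_smul]
    have h2 : (fun z : ℍ => m⁻¹ • z) '' M = M := by
      conv_lhs => rw [← h]
      rw [Set.image_image]; simp
    rw [this, h2, ih]

/-- local finiteness of the translates of a periodic geodesic -/
lemma locally_finite {G : Subgroup PGL(2, ℝ)} (hG : IsSurfaceGroup G)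
    {M : Set ℍ} (hM : IsGeodesic M) {k : PGL(2, ℝ)} (hk : k ∈ G)
    (hk1 : k ≠ 1) (hkM : (fun z => k • z) '' M = M) {K : Set ℍ} (hK : IsCompact K) :
    {N : Set ℍ | (∃ g ∈ G, N = (fun z => g • z) '' M) ∧ (N ∩ K).Nonempty}.Finite := by
  obtain ⟨A, hA⟩ := hM
  obtain ⟨m, hm, τ, hτ, hmM, ht⟩ := exists_translation hG hA hk hk1 hkM
  have hK0 : IsCompact ((fun t => A • iE t) '' Set.Icc 0 τ) :=
    isCompact_Icc.image ((continuous_const_smul A).comp continuous_iE)
  have := hG.disc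
  have hfin := ProperlyDiscontinuousSMul.finite_disjoint_inter_image (Γ := G) hK0 hK
  refine (hfin.image (fun g : G => (fun z => (g : PGL(2, ℝ)) • z) '' M)).subset ?_
  rintro N ⟨⟨g, hg, rfl⟩, z, ⟨w, hw, rfl⟩, hzK⟩
  have hw' := hw
  rw [hA] at hw'
  obtain ⟨v, hv, rfl⟩ := hw'
  have hv' : v = iE (Real.log v.im) := eq_iE hv
  set t := Real.log v.im with htdef
  -- bring `t` into `[0, τ]`
  obtain ⟨n, hn⟩ : ∃ n : ℤ, t + n * τ ∈ Set.Icc 0 τ := by
    refine ⟨-⌊t / τ⌋, ?_, ?_⟩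
    · have := Int.floor_le (t / τ)
      rw [le_div_iff₀ hτ] at this
      push_cast; linarith
    · have := (Int.lt_floor_add_one (t / τ)).le
      rw [div_le_iff₀ hτ] at this
      push_cast; linarith
  have e1 : (m ^ n) • (A • v) = A • iE (t + n * τ) := by
    rw [hv', zpow_translation ht]
  refine ⟨⟨g * (m ^ n)⁻¹, mul_mem hg (inv_mem (zpow_mem hm n))⟩, ?_, ?_⟩
  · refine ⟨g • (A • v), ⟨A • iE (t + n * τ), ⟨_, hn, rfl⟩, ?_⟩, hzK⟩
    show (g * (m ^ n)⁻¹) • (A • iE (t + n * τ)) = g • (A • v)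
    rw [← e1, mul_smul, inv_smul_smul]
  · show (fun z : ℍ => (g * (m ^ n)⁻¹) • z) '' M = (fun z => g • z) '' M
    conv_rhs => rw [← zpow_image hmM (-n)]
    rw [Set.image_image]
    simp only [mul_smul, _root_.zpow_neg]

end

end Q281.MF
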