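import Mathlib

/-!
A right-angled hyperbolic pentagon with rational sides and its reflections.
-/

open UpperHalfPlane Matrix
open scoped MatrixGroups

namespace Q281.MF

noncomputable section

/-- normalised value of the form `α |z|² + β Re z + γ` at `z` -/
def Fv (α β γ : ℝ) (z : ℍ) : ℝ := (α * (z.re ^ 2 + z.im ^ 2) + β * z.re + γ) / z.im

lemma normSq_lin (a b : ℝ) (z : ℍ) :
    Complex.normSq ((a : ℂ) * (z : ℂ) + b) = (a * z.re + b) ^ 2 + a ^ 2 * z.im ^ 2 := by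
  simp [Complex.normSq_apply]; ring

lemma D_pos (g : GL (Fin 2) ℝ) (z : ℍ) :
    0 < (g 1 0 * z.re + g 1 1) ^ 2 + g 1 0 ^ 2 * z.im ^ 2 := by
  have h := UpperHalfPlane.normSq_denom_pos g (z := z) z.im_ne_zero
  rwa [show denom g z = (g 1 0 : ℂ) * z + (g 1 1 : ℂ) from rfl, normSq_lin] at h

lemma im_smul' (g : GL (Fin 2) ℝ) (z : ℍ) :
    (g • z).im = |g.det.val| * z.im / ((g 1 0 * z.re + g 1 1) ^ 2 + g 1 0 ^ 2 * z.im ^ 2) := by
  rw [im_smul_eq_div_normSq, show denom g z = (g 1 0 : ℂ) * z + (g 1 1 : ℂ) from rfl, normSq_lin]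

lemma re_smul' (g : GL (Fin 2) ℝ) (z : ℍ) :
    (g • z).re = (g 0 0 * g 1 0 * (z.re ^ 2 + z.im ^ 2) + (g 0 0 * g 1 1 + g 0 1 * g 1 0) * z.re
      + g 0 1 * g 1 1) / ((g 1 0 * z.re + g 1 1) ^ 2 + g 1 0 ^ 2 * z.im ^ 2) := by
  rw [re_smul, show denom g z = (g 1 0 : ℂ) * z + (g 1 1 : ℂ) from rfl,
    show num g z = (g 0 0 : ℂ) * z + (g 0 1 : ℂ) from rfl, Complex.div_re, normSq_lin]
  simp
  ring

lemma det_val (g : GL (Fin 2) ℝ) : g.det.val = g 0 0 * g 1 1 - g 0 1 * g 1 0 := by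
  rw [GeneralLinearGroup.val_det_apply, Matrix.det_fin_two]

lemma normSq_smul' (g : GL (Fin 2) ℝ) (z : ℍ) :
    (g • z).re ^ 2 + (g • z).im ^ 2 = ((g 0 0 * z.re + g 0 1) ^ 2 + g 0 0 ^ 2 * z.im ^ 2) /
      ((g 1 0 * z.re + g 1 1) ^ 2 + g 1 0 ^ 2 * z.im ^ 2) := by
  have hD := D_pos g z
  rw [re_smul', im_smul', div_pow, div_pow, mul_pow, sq_abs, det_val]
  field_simp
  ring

lemma Fv_smul (g : GL (Fin 2) ℝ) (α β γ : ℝ) (z : ℍ) :
    Fv α β γ (g • z) = (α * ((g 0 0 * z.re + g 0 1) ^ 2 + g 0 0 ^ 2 * z.im ^ 2)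
      + β * (g 0 0 * g 1 0 * (z.re ^ 2 + z.im ^ 2) + (g 0 0 * g 1 1 + g 0 1 * g 1 0) * z.re
      + g 0 1 * g 1 1) + γ * ((g 1 0 * z.re + g 1 1) ^ 2 + g 1 0 ^ 2 * z.im ^ 2)) /
      (|g.det.val| * z.im) := by
  have hD := D_pos g z
  have hy := z.im_pos
  have hd : 0 < |g.det.val| := abs_pos.mpr g.det.ne_zero
  rw [Fv, normSq_smul', re_smul', im_smul']
  generalize (g 1 0 * z.re + g 1 1) ^ 2 + g 1 0 ^ 2 * z.im ^ 2 = D at hD ⊢
  have hD' := hD.ne'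
  have hy' := hy.ne'
  have hd' := hd.ne'
  field_simp

/-- the five reflections, as rational matrices -/
def Rm : Fin 5 → Matrix (Fin 2) (Fin 2) ℚ :=
  ![!![-1, 0; 0, 1], !![0, 3; 1, 0], !![15, -24; 8, -15], !![12, -12; 11, -12], !![0, 12; 11, 0]]

def dt : Fin 5 → ℚ := ![-1, -3, -33, -12, -132]

lemma Rm_det (i : Fin 5) : (Rm i).det = dt i := by
  fin_cases i <;> simp [Rm, dt, Matrix.det_fin_two] <;> norm_num

lemma dt_ne (i : Fin 5) : dt i ≠ 0 := by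
  fin_cases i <;> simp [dt]

def gq (i : Fin 5) : GL (Fin 2) ℚ :=
  GeneralLinearGroup.mkOfDetNeZero (Rm i) (by rw [Rm_det]; exact dt_ne i)

def toR : GL (Fin 2) ℚ →* GL (Fin 2) ℝ := GeneralLinearGroup.map (algebraMap ℚ ℝ)

/-- the reflections as elements of `PGL(2, ℝ)` -/
def r (i : Fin 5) : PGL(2, ℝ) := ProjGenLinGroup.mk (toR (gq i))

/-- coefficients of the sides -/
def ca : Fin 5 → ℝ := ![0, -1, 4, 11, 11]
def cb : Fin 5 → ℝ := ![1, 0, -15, -24, 0]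
def cc : Fin 5 → ℝ := ![0, 3, 12, 12, -12]

/-- side functions: the pentagon is where all are nonnegative -/
def F (i : Fin 5) (z : ℍ) : ℝ := Fv (ca i) (cb i) (cc i) z

lemma toR_gq (i : Fin 5) (j k : Fin 2) : (toR (gq i)) j k = (Rm i j k : ℝ) := by
  simp [toR, gq, GeneralLinearGroup.mkOfDetNeZero]

lemma toR_det (i : Fin 5) : (toR (gq i)).det.val = (dt i : ℝ) := by
  rw [det_val, toR_gq, toR_gq, toR_gq, toR_gq, ← Rm_det, Matrix.det_fin_two]
  push_cast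
  ring

lemma F_r_self (i : Fin 5) (z : ℍ) : F i (r i • z) = - F i z := by
  have hy := z.im_pos
  rw [r, pglMk_smul, F, Fv_smul, toR_det, F, Fv]
  simp only [toR_gq]
  fin_cases i <;> simp [ca, cb, cc, dt, Rm] <;> field_simp <;> ring

lemma F_r_adj (i : Fin 5) (z : ℍ) : F i (r (i + 1) • z) = F i z := by
  have hy := z.im_pos
  rw [r, pglMk_smul, F, Fv_smul, toR_det, F, Fv]
  simp only [toR_gq]
  fin_cases i <;> simp [ca, cb, cc, dt, Rm] <;> field_simp <;> ring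

lemma F_r_adj' (i : Fin 5) (z : ℍ) : F (i + 1) (r i • z) = F (i + 1) z := by
  have hy := z.im_pos
  rw [r, pglMk_smul, F, Fv_smul, toR_det, F, Fv]
  simp only [toR_gq]
  fin_cases i <;> simp [ca, cb, cc, dt, Rm] <;> field_simp <;> ring

/-- sign of the side functions through the numerators -/
lemma F_nonneg_iff (i : Fin 5) (z : ℍ) :
    0 ≤ F i z ↔ 0 ≤ ca i * (z.re ^ 2 + z.im ^ 2) + cb i * z.re + cc i := by
  rw [F, Fv, le_div_iff₀ z.im_pos, zero_mul]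

lemma F_nonpos_iff (i : Fin 5) (z : ℍ) :
    F i z ≤ 0 ↔ ca i * (z.re ^ 2 + z.im ^ 2) + cb i * z.re + cc i ≤ 0 := by
  rw [F, Fv, div_le_iff₀ z.im_pos, zero_mul]

lemma F_pos_iff (i : Fin 5) (z : ℍ) :
    0 < F i z ↔ 0 < ca i * (z.re ^ 2 + z.im ^ 2) + cb i * z.re + cc i := by
  rw [F, Fv, lt_div_iff₀ z.im_pos, zero_mul]

/-- non-adjacent closed outer half planes are disjoint -/
lemma F_far (i : Fin 5) (z : ℍ) (h : F i z ≤ 0) : 0 < F (i + 2) z := by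
  have hy := z.im_pos
  rw [F_nonpos_iff] at h
  rw [F_pos_iff]
  generalize z.re = x at *
  generalize z.im = y at *
  have hy2 : 0 < y ^ 2 := by positivity
  fin_cases i
  · simp [ca, cb, cc] at h ⊢
    nlinarith [sq_nonneg x]
  · simp [ca, cb, cc] at h ⊢
    nlinarith [sq_nonneg (2 * x - 3)]
  · simp [ca, cb, cc] at h ⊢
    nlinarith [sq_nonneg (3 * x - 5 / 2)]
  · simp [ca, cb, cc] at h ⊢
    nlinarith [sq_nonneg x]
  · simp [ca, cb, cc] at h ⊢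
    nlinarith

lemma F_far' (i : Fin 5) (z : ℍ) (h : F (i + 2) z ≤ 0) : 0 < F i z := by
  by_contra h'
  exact absurd (F_far i z (not_lt.mp h')) (not_lt.mpr h)

lemma r_sq (i : Fin 5) : r i * r i = 1 := by
  have : toR (gq i) * toR (gq i) = GeneralLinearGroup.scalar (Fin 2)
      (Units.mk0 (-(dt i : ℝ)) (by simpa using dt_ne i)) := by
    ext j k
    fin_cases i <;> fin_cases j <;> fin_cases k <;>
      simp [Matrix.mul_apply, Fin.sum_univ_two, toR_gq, Rm, dt] <;> norm_num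
  rw [r, ← map_mul, this, ProjGenLinGroup.mk_scalar]

lemma r_inv (i : Fin 5) : (r i)⁻¹ = r i := inv_eq_of_mul_eq_one_left (r_sq i)

lemma r_r_smul (i : Fin 5) (z : ℍ) : r i • r i • z = z := by
  rw [← mul_smul, r_sq, one_smul]

lemma r_comm (i : Fin 5) : r i * r (i + 1) = r (i + 1) * r i := by
  rw [r, r, ← map_mul ProjGenLinGroup.mk, ← map_mul ProjGenLinGroup.mk,
    ProjGenLinGroup.mk_eq_mk_iff]
  refine ⟨-1, ?_⟩
  ext j k
  fin_cases i <;> fin_cases j <;> fin_cases k <;>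
    simp [Matrix.mul_apply, Fin.sum_univ_two, toR_gq, Rm] <;> norm_num

end

end Q281.MF
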