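import Pool.Agent.Q281.MF.Line

/-! A neighbourhood of the imaginary axis avoided by all simple geodesics disjoint from it. -/

open UpperHalfPlane Matrix
open scoped MatrixGroups

namespace Q281.MF

noncomputable section

/-- `h` acts as the homothety of ratio `s` -/
def Hom (h : PGL(2, ℝ)) (s : ℝ) : Prop := ∀ z : ℍ, (h • z).re = s * z.re ∧ (h • z).im = s * z.im

lemma Hom.inv {h : PGL(2, ℝ)} {s : ℝ} (hs : s ≠ 0) (hh : Hom h s) : Hom h⁻¹ s⁻¹ := by
  intro z
  have := hh (h⁻¹ • z)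
  rw [smul_inv_smul] at this
  constructor
  · rw [this.1]; field_simp
  · rw [this.2]; field_simp

lemma Hom.pow {h : PGL(2, ℝ)} {s : ℝ} (hh : Hom h s) (n : ℕ) : Hom (h ^ n) (s ^ n) := by
  induction n with
  | zero => intro z; simp
  | succ n ih =>
    intro z
    rw [pow_succ, mul_smul]
    have h1 := ih (h • z)
    have h2 := hh z
    constructor
    · rw [h1.1, h2.1]; ring
    · rw [h1.2, h2.2]; ring

lemma mem_image_smul {g : PGL(2, ℝ)} {M : Set ℍ} {z : ℍ} :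
    z ∈ (fun w => g • w) '' M ↔ g⁻¹ • z ∈ M := by
  constructor
  · rintro ⟨w, hw, rfl⟩; simpa using hw
  · intro h; exact ⟨_, h, by simp⟩

lemma dist_I_le' {z : ℍ} (h1 : 1 / 4 ≤ z.im) (h2 : z.re ^ 2 + z.im ^ 2 ≤ 3) : dist z I ≤ 17 := by
  have h3 : Real.cosh (dist z I) ≤ 9 := by
    rw [UpperHalfPlane.cosh_dist, Complex.dist_eq]
    have : ‖(z : ℂ) - (I : ℍ)‖ ^ 2 = z.re ^ 2 + (z.im - 1) ^ 2 := by
      rw [← Complex.normSq_eq_norm_sq, Complex.normSq_apply]
      simp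
      ring
    rw [this]
    have h4 : z.re ^ 2 + (z.im - 1) ^ 2 ≤ 4 := by nlinarith
    have h5 : (I : ℍ).im = 1 := by simp
    rw [h5]
    have : (z.re ^ 2 + (z.im - 1) ^ 2) / (2 * z.im * 1) ≤ 8 := by
      rw [div_le_iff₀ (by positivity)]; linarith
    linarith
  have h4 : (9 : ℝ) ≤ Real.cosh 17 := by
    rw [Real.cosh_eq]
    have := Real.add_one_le_exp (17 : ℝ)
    have := Real.exp_pos (-17)
    linarith
  have h5 := Real.cosh_le_cosh.mp (h3.trans h4)
  rwa [abs_of_nonneg dist_nonneg, abs_of_nonneg (by norm_num)] at h5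

/-- the point of the unit circle with real part `x` -/
lemma exists_unit (x : ℝ) (hx : |x| ≤ 1 / 2) : ∃ z : ℍ, z.re = x ∧ z.re ^ 2 + z.im ^ 2 = 1 ∧
    dist z I ≤ 17 := by
  have hx2 : x ^ 2 ≤ 1 / 4 := by
    have := abs_le.mp hx
    nlinarith
  have hy : 0 < √(1 - x ^ 2) := Real.sqrt_pos.mpr (by linarith)
  have hy2 : √(1 - x ^ 2) ^ 2 = 1 - x ^ 2 := Real.sq_sqrt (by linarith)
  set z : ℍ := ⟨⟨x, √(1 - x ^ 2)⟩, hy⟩ with hz
  have h1 : z.re = x := rfl
  have h2 : z.im = √(1 - x ^ 2) := rfl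
  have h3 : z.re ^ 2 + z.im ^ 2 = 1 := by rw [h1, h2, hy2]; ring
  refine ⟨z, h1, h3, dist_I_le' ?_ (by linarith)⟩
  rw [h2]
  rw [← Real.sqrt_sq (show (0 : ℝ) ≤ 1 / 4 by norm_num)]
  exact Real.sqrt_le_sqrt (by nlinarith)

/-- no geodesic asymptotic to the axis is periodic (other than the axis itself) -/
lemma not_asymptotic_aux {G : Subgroup PGL(2, ℝ)} (hG : IsSurfaceGroup G)
    {M : Set ℍ} (hM : IsGeodesic M) {k : PGL(2, ℝ)} (hk : k ∈ G)
    (hk1 : k ≠ 1) (hkM : (fun z => k • z) '' M = M)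
    (g : ℕ → PGL(2, ℝ)) (hg : ∀ n, g n ∈ G) (q : ℝ) (hq0 : 0 < q) (hq1 : q < 1)
    (b d : ℝ) (hb : b ≠ 0) (hd : d ≠ 0)
    (hmem : ∀ n, ∀ z : ℍ, z.re ^ 2 + z.im ^ 2 = 1 →
      (z ∈ (fun w => g n • w) '' M ↔ b * z.re + d * q ^ n = 0)) : False := by
  have hfin := locally_finite hG hM hk hk1 hkM (isCompact_closedBall (I : ℍ) 17)
  have hlim : Filter.Tendsto (fun n : ℕ => |d / b| * q ^ n) Filter.atTop (nhds 0) := by
    have := (tendsto_pow_atTop_nhds_zero_of_lt_one hq0.le hq1).const_mul |d / b|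
    simpa using this
  obtain ⟨n0, hn0⟩ := Filter.eventually_atTop.mp
    (hlim.eventually (ge_mem_nhds (show (0 : ℝ) < 1 / 2 by norm_num)))
  have hpt : ∀ n, ∃ z : ℍ, z.re = -(d * q ^ (n + n0)) / b ∧ z.re ^ 2 + z.im ^ 2 = 1 ∧
      dist z I ≤ 17 := by
    intro n
    apply exists_unit
    have := hn0 (n + n0) (Nat.le_add_left _ _)
    rw [abs_div, abs_neg, abs_mul, abs_of_pos (pow_pos hq0 _)]
    rw [abs_div] at this
    calc |d| * q ^ (n + n0) / |b| = |d| / |b| * q ^ (n + n0) := by ring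
      _ ≤ 1 / 2 := this
  choose z hz1 hz2 hz3 using hpt
  have hin : ∀ n, z n ∈ (fun w => g (n + n0) • w) '' M := by
    intro n
    rw [hmem _ _ (hz2 n), hz1]
    field_simp
    ring
  have hinj : Function.Injective (fun n : ℕ => (fun w => g (n + n0) • w) '' M) := by
    intro n m hnm
    have h1 := hin n
    have hnm' : (fun w => g (n + n0) • w) '' M = (fun w => g (m + n0) • w) '' M := hnm
    rw [hnm', hmem _ _ (hz2 n), hz1] at h1
    have h2 : q ^ (n + n0) = q ^ (m + n0) := by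
      have : b * (-(d * q ^ (n + n0)) / b) = -(d * q ^ (n + n0)) := by field_simp
      rw [this] at h1
      have : d * (q ^ (m + n0) - q ^ (n + n0)) = 0 := by linear_combination h1
      have := (mul_eq_zero.mp this).resolve_left hd
      linarith
    have := pow_right_injective₀ hq0 hq1.ne h2
    omega
  exact Set.infinite_range_of_injective hinj (hfin.subset (by
    rintro _ ⟨n, rfl⟩
    exact ⟨⟨g (n + n0), hg _, rfl⟩, z n, hin n, Metric.mem_closedBall.mpr (hz3 n)⟩))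

lemma not_asymptotic {G : Subgroup PGL(2, ℝ)} (hG : IsSurfaceGroup G)
    {M : Set ℍ} (hM : IsGeodesic M) {k : PGL(2, ℝ)} (hk : k ∈ G)
    (hk1 : k ≠ 1) (hkM : (fun z => k • z) '' M = M)
    {h : PGL(2, ℝ)} (hh : h ∈ G) {s : ℝ} (hs : 1 < s) (hhom : Hom h s)
    {a b c : ℝ} (habc : b ^ 2 - 4 * a * c = 1)
    (hmem : ∀ z : ℍ, z ∈ M ↔ a * (z.re ^ 2 + z.im ^ 2) + b * z.re + c = 0)
    (hac : a * c = 0) : a = 0 ∧ c = 0 := by
  have hb : b ≠ 0 := by rintro rfl; nlinarith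
  have hs0 : 0 < s := by linarith
  have hinv : Hom h⁻¹ s⁻¹ := hhom.inv hs0.ne'
  have hq0 : 0 < s⁻¹ := inv_pos.mpr hs0
  have hq1 : s⁻¹ < 1 := inv_lt_one_of_one_lt₀ hs
  by_contra hne
  rcases mul_eq_zero.mp hac with ha | hc
  · have hc : c ≠ 0 := fun hc => hne ⟨ha, hc⟩
    refine not_asymptotic_aux hG hM hk hk1 hkM (fun n => (h⁻¹) ^ n)
      (fun n => pow_mem (inv_mem hh) n) s⁻¹ hq0 hq1 b c hb hc (fun n z _ => ?_)
    rw [mem_image_smul, hmem, ha, ← inv_pow, inv_inv, (hhom.pow n z).1]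
    have : s ^ n ≠ 0 := (pow_pos hs0 n).ne'
    constructor
    · intro h1
      rw [inv_pow]
      field_simp
      linarith
    · intro h1
      rw [inv_pow] at h1
      field_simp at h1
      linarith
  · have ha : a ≠ 0 := fun ha => hne ⟨ha, hc⟩
    refine not_asymptotic_aux hG hM hk hk1 hkM (fun n => h ^ n)
      (fun n => pow_mem hh n) s⁻¹ hq0 hq1 b a hb ha (fun n z hz => ?_)
    have e1 := hinv.pow n z
    rw [mem_image_smul, hmem, hc, ← inv_pow, e1.1, e1.2]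
    have e2 : (s⁻¹ ^ n * z.re) ^ 2 + (s⁻¹ ^ n * z.im) ^ 2 = (s⁻¹ ^ n) ^ 2 := by
      linear_combination (s⁻¹ ^ n) ^ 2 * hz
    rw [e2]
    have hp : s⁻¹ ^ n ≠ 0 := (pow_pos hq0 n).ne'
    constructor
    · intro h1
      have : s⁻¹ ^ n * (b * z.re + a * s⁻¹ ^ n) = 0 := by linear_combination h1
      exact (mul_eq_zero.mp this).resolve_left hp
    · intro h1
      linear_combination s⁻¹ ^ n * h1

/-- the width bound from simplicity -/
lemma width {M : Set ℍ} {h : PGL(2, ℝ)} {s : ℝ} (hs : 1 < s) (hhom : Hom h s)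
    {a b c : ℝ} (habc : b ^ 2 - 4 * a * c = 1)
    (hmem : ∀ z : ℍ, z ∈ M ↔ a * (z.re ^ 2 + z.im ^ 2) + b * z.re + c = 0)
    (hac : 0 < a * c)
    (hsimple : (fun z => h • z) '' M = M ∨ Disjoint ((fun z => h • z) '' M) M) :
    s ≤ a * c * (s - 1) ^ 2 := by
  by_contra hlt
  rw [not_le] at hlt
  have hs0 : 0 < s := by linarith
  have ha : a ≠ 0 := by rintro rfl; simp at hac
  have hc : c ≠ 0 := by rintro rfl; simp at hac
  have hb2 : 0 < b ^ 2 := by nlinarith
  have hb : b ≠ 0 := by rintro rfl; simp at hb2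
  set x := -(c * (1 + s)) / b with hx
  have hbx : b * x = -(c * (1 + s)) := by rw [hx]; field_simp
  have hpos : 0 < s * c / a - x ^ 2 := by
    have e : s * c / a - x ^ 2 = (c * a) * (s * b ^ 2 - a * c * (1 + s) ^ 2) / (a ^ 2 * b ^ 2) := by
      rw [hx]; field_simp
    rw [e]
    apply div_pos _ (by positivity)
    apply mul_pos (by linarith)
    nlinarith
  have hy : 0 < √(s * c / a - x ^ 2) := Real.sqrt_pos.mpr hpos
  have hy2 : √(s * c / a - x ^ 2) ^ 2 = s * c / a - x ^ 2 := Real.sq_sqrt hpos.le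
  set z : ℍ := ⟨⟨x, √(s * c / a - x ^ 2)⟩, hy⟩ with hz
  have h1 : z.re = x := rfl
  have h2 : z.im = √(s * c / a - x ^ 2) := rfl
  have hN : z.re ^ 2 + z.im ^ 2 = s * c / a := by rw [h1, h2, hy2]; ring
  have hinv : Hom h⁻¹ s⁻¹ := hhom.inv hs0.ne'
  have haN : a * (s * c / a) = s * c := by field_simp
  have hz1 : z ∈ M := by
    rw [hmem, hN, haN, h1, hbx]; ring
  have hsc : ∀ w : ℍ, (h⁻¹ • w).re ^ 2 + (h⁻¹ • w).im ^ 2 = (s⁻¹) ^ 2 * (w.re ^ 2 + w.im ^ 2) := by
    intro w; rw [(hinv w).1, (hinv w).2]; ring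
  have hz2 : h⁻¹ • z ∈ M := by
    rw [hmem, hsc, hN, (hinv z).1, h1]
    have : a * (s⁻¹ ^ 2 * (s * c / a)) + b * (s⁻¹ * x) + c =
        s⁻¹ ^ 2 * (a * (s * c / a)) + s⁻¹ * (b * x) + c := by ring
    rw [this, haN, hbx]
    field_simp
    ring
  rcases hsimple with hs1 | hs1
  · have hz3 : h⁻¹ • (h⁻¹ • z) ∈ M := by
      rw [← mem_image_smul, hs1]; exact hz2
    rw [hmem, hsc, hsc, hN, (hinv (h⁻¹ • z)).1, (hinv z).1, h1] at hz3
    have e : a * (s⁻¹ ^ 2 * (s⁻¹ ^ 2 * (s * c / a))) + b * (s⁻¹ * (s⁻¹ * x)) + c =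
        s⁻¹ ^ 4 * (a * (s * c / a)) + s⁻¹ ^ 2 * (b * x) + c := by ring
    rw [e, haN, hbx] at hz3
    field_simp at hz3
    have h4 : c * ((s - 1) ^ 2 * (s + 1)) = 0 := by
      linear_combination hz3
    have h5 : 0 < (s - 1) ^ 2 * (s + 1) := by
      have : 0 < s - 1 := by linarith
      positivity
    rcases mul_eq_zero.mp h4 with h6 | h6
    · exact hc h6
    · exact h5.ne' h6
  · exact Set.disjoint_left.mp hs1 (mem_image_smul.mpr hz2) hz1

/-- the slope of the avoided ray -/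
def slope (s : ℝ) : ℝ := √s / (s - 1)

lemma slope_pos {s : ℝ} (hs : 1 < s) : 0 < slope s :=
  div_pos (Real.sqrt_pos.mpr (by linarith)) (by linarith)

lemma slope_sq {s : ℝ} (hs : 1 < s) : slope s ^ 2 * (s - 1) ^ 2 = s := by
  have : s - 1 ≠ 0 := by linarith [hs]
  rw [slope, div_pow, Real.sq_sqrt (by linarith)]
  field_simp

/-- the ray avoids all simple periodic geodesics disjoint from the axis -/
lemma ray_avoid {G : Subgroup PGL(2, ℝ)} (hG : IsSurfaceGroup G)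
    {M : Set ℍ} (hM : IsGeodesic M) {k : PGL(2, ℝ)} (hk : k ∈ G)
    (hk1 : k ≠ 1) (hkM : (fun z => k • z) '' M = M)
    {h : PGL(2, ℝ)} (hh : h ∈ G) {s : ℝ} (hs : 1 < s) (hhom : Hom h s)
    (hsimple : (fun z => h • z) '' M = M ∨ Disjoint ((fun z => h • z) '' M) M)
    (haxis : ∀ z ∈ M, z.re ≠ 0) {z : ℍ} (hz : z ∈ M) : z.re ≠ slope s * z.im := by
  obtain ⟨a, b, c, habc, hmem⟩ := geod_eq hM
  rcases lt_trichotomy (a * c) 0 with hac | hac | hac
  · exfalso
    have ha : a ≠ 0 := by rintro rfl; simp at hac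
    have hpos : 0 < -c / a := by
      have : -c / a = -(a * c) / a ^ 2 := by field_simp
      rw [this]
      apply div_pos (by linarith) (by positivity)
    have hy : 0 < √(-c / a) := Real.sqrt_pos.mpr hpos
    have hy2 : √(-c / a) ^ 2 = -c / a := Real.sq_sqrt hpos.le
    set w : ℍ := ⟨⟨0, √(-c / a)⟩, hy⟩ with hw
    have h1 : w.re = 0 := rfl
    have h2 : w.im = √(-c / a) := rfl
    refine haxis w ?_ h1
    rw [hmem, h1, h2, hy2]
    field_simp
    ring
  · exfalso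
    obtain ⟨ha, hc⟩ := not_asymptotic hG hM hk hk1 hkM hh hs hhom habc hmem hac
    have hb : b ≠ 0 := by rintro rfl; nlinarith
    have h1 := (hmem z).mp hz
    rw [ha, hc] at h1
    have : b * z.re = 0 := by linarith
    exact haxis z hz ((mul_eq_zero.mp this).resolve_left hb)
  · intro heq
    have hw := width hs hhom habc hmem hac hsimple
    have h1 := (hmem z).mp hz
    have hy := z.im_pos
    have hsl := slope_sq hs
    have hslp := slope_pos hs
    rw [heq] at h1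
    set e := slope s
    have key : (2 * a * (1 + e ^ 2) * z.im + b * e) ^ 2 = e ^ 2 - 4 * (a * c) := by
      linear_combination (4 * a * (1 + e ^ 2)) * h1 + e ^ 2 * habc
    have h2 : e ^ 2 - 4 * (a * c) < 0 := by
      have h3 : 0 < (s - 1) ^ 2 := by
        have : 0 < s - 1 := by linarith
        positivity
      have h4 : (e ^ 2 - 4 * (a * c)) * (s - 1) ^ 2 < 0 := by nlinarith
      by_contra h5
      rw [not_lt] at h5
      nlinarith [mul_nonneg h5 h3.le]
    nlinarith [sq_nonneg (2 * a * (1 + e ^ 2) * z.im + b * e)]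

end

end Q281.MF
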