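import Pool.Agent.Q281.MF.Cox

/-! Isometry, local covering by tiles. -/

open UpperHalfPlane Matrix
open scoped MatrixGroups

namespace Q281.MF

noncomputable section

lemma dist_gl (g : GL (Fin 2) ℝ) (z w : ℍ) : dist (g • z) (g • w) = dist z w := by
  rw [UpperHalfPlane.dist_eq, UpperHalfPlane.dist_eq]
  congr 2
  have dz : denom g z ≠ 0 := denom_ne_zero g z
  have dw : denom g w ≠ 0 := denom_ne_zero g w
  have hd : 0 < |g.det.val| := abs_pos.mpr g.det.ne_zero
  have nz : 0 < ‖denom g z‖ := norm_pos_iff.mpr dz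
  have nw : 0 < ‖denom g w‖ := norm_pos_iff.mpr dw
  have e1 : dist ((g • z : ℍ) : ℂ) ((g • w : ℍ) : ℂ) =
      |g.det.val| * dist (z : ℂ) w / (‖denom g z‖ * ‖denom g w‖) := by
    have e : num g z * denom g w - denom g z * num g w = ((g.det.val : ℝ) : ℂ) * (z - w) := by
      rw [det_val]
      simp only [num, denom]
      push_cast
      ring
    rw [coe_smul, coe_smul, Complex.dist_eq, ← map_sub, norm_σ, div_sub_div _ _ dz dw, norm_div,
      norm_mul, Complex.dist_eq, e, norm_mul, Complex.norm_real, Real.norm_eq_abs]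
  have e2 : √((g • z).im * (g • w).im) =
      |g.det.val| * √(z.im * w.im) / (‖denom g z‖ * ‖denom g w‖) := by
    rw [im_smul_eq_div_normSq, im_smul_eq_div_normSq, Complex.normSq_eq_norm_sq,
      Complex.normSq_eq_norm_sq]
    have : |g.det.val| * z.im / ‖denom g z‖ ^ 2 * (|g.det.val| * w.im / ‖denom g w‖ ^ 2) =
        (|g.det.val| / (‖denom g z‖ * ‖denom g w‖)) ^ 2 * (z.im * w.im) := by
      field_simp
    rw [this, Real.sqrt_mul (by positivity), Real.sqrt_sq (by positivity)]
    ring
  have hs : 0 < √(z.im * w.im) := Real.sqrt_pos.mpr (mul_pos z.im_pos w.im_pos)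
  rw [e1, e2]
  field_simp

lemma dist_pgl (g : PGL(2, ℝ)) (z w : ℍ) : dist (g • z) (g • w) = dist z w := by
  induction g using ProjGenLinGroup.induction_on with
  | mk g => rw [pglMk_smul, pglMk_smul, dist_gl]

lemma isometry_pgl (g : PGL(2, ℝ)) : Isometry (fun z : ℍ => g • z) :=
  Isometry.of_dist_eq (dist_pgl g)

instance : ContinuousConstSMul PGL(2, ℝ) ℍ := ⟨fun g => (isometry_pgl g).continuous⟩

lemma continuous_F (i : Fin 5) : Continuous (F i) := by
  unfold F Fv
  refine Continuous.div ?_ continuous_im (fun z => z.im_ne_zero)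
  have h1 := UpperHalfPlane.continuous_re
  have h2 := UpperHalfPlane.continuous_im
  fun_prop

lemma isClosed_Pent : IsClosed Pent := by
  have : Pent = ⋂ k, {z | 0 ≤ F k z} := by ext z; simp [Pent]
  rw [this]
  exact isClosed_iInter fun k => isClosed_le continuous_const (continuous_F k)

lemma stab_cases {p : ℍ} (_hp : p ∈ Pent) : ∃ i : Fin 5, ∀ k, F k p = 0 → k = i ∨ k = i + 1 := by
  have h : ∀ k, F k p = 0 → ¬ F (k + 2) p = 0 := by
    intro k hk hk2
    exact absurd (F_far k p hk.le) (by rw [hk2]; exact lt_irrefl _)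
  have h' : ∀ k, F k p = 0 → ¬ F (k + 3) p = 0 := by
    intro k hk hk2
    have := h (k + 3) hk2
    rw [(by decide : ∀ k : Fin 5, k + 3 + 2 = k) k] at this
    exact this hk
  by_cases h0 : F 0 p = 0
  · have := h 0 h0
    have := h' 0 h0
    by_cases h1 : F 1 p = 0
    · have := h 1 h1
      have := h' 1 h1
      refine ⟨0, fun k hk => ?_⟩
      fin_cases k <;> simp_all
    · refine ⟨4, fun k hk => ?_⟩
      fin_cases k <;> simp_all
  · by_cases h1 : F 1 p = 0
    · have := h 1 h1
      have := h' 1 h1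
      refine ⟨1, fun k hk => ?_⟩
      fin_cases k <;> simp_all
    · by_cases h2 : F 2 p = 0
      · have := h 2 h2
        refine ⟨2, fun k hk => ?_⟩
        fin_cases k <;> simp_all
      · refine ⟨3, fun k hk => ?_⟩
        fin_cases k <;> simp_all

/-- the word flipping a point into the quadrant of the sides `i`, `i + 1` -/
def flip (i : Fin 5) (z : ℍ) : List (Fin 5) :=
  (if F i z < 0 then [i] else []) ++ (if F (i + 1) z < 0 then [i + 1] else [])

lemma flip_F (i : Fin 5) (z : ℍ) : 0 ≤ F i (P (flip i z) • z) ∧ 0 ≤ F (i + 1) (P (flip i z) • z) := by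
  unfold flip
  split_ifs with h1 h2 h2
  · simp only [List.singleton_append, P_cons, P_nil, mul_one, mul_smul]
    rw [F_r_self, F_r_adj, F_r_adj', F_r_self]
    constructor <;> linarith
  · simp only [List.append_nil, P_cons, P_nil, mul_one]
    rw [F_r_self, F_r_adj']
    constructor <;> linarith
  · simp only [List.nil_append, P_cons, P_nil, mul_one]
    rw [F_r_self, F_r_adj]
    constructor <;> linarith
  · simp only [List.append_nil, P_nil, one_smul]
    exact ⟨not_lt.mp h1, not_lt.mp h2⟩

lemma flip_fix (i : Fin 5) (z p : ℍ) (h1 : F i z < 0 → F i p = 0)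
    (h2 : F (i + 1) z < 0 → F (i + 1) p = 0) : P (flip i z) • p = p := by
  unfold flip
  split_ifs with h3 h4 h4
  · simp only [List.singleton_append, P_cons, P_nil, mul_one, mul_smul]
    rw [fix_of_F _ _ (h2 h4), fix_of_F _ _ (h1 h3)]
  · simp only [List.append_nil, P_cons, P_nil, mul_one]
    rw [fix_of_F _ _ (h1 h3)]
  · simp only [List.nil_append, P_cons, P_nil, mul_one]
    rw [fix_of_F _ _ (h2 h4)]
  · simp only [List.append_nil, P_nil, one_smul]

/-- local covering -/
lemma local_cover {p : ℍ} (hp : p ∈ Pent) : ∃ δ > 0, ∃ i : Fin 5, (∀ k, F k p = 0 → k = i ∨ k = i + 1) ∧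
    ∀ z, dist z p < δ → (∀ k, 0 < F k p → 0 < F k z) ∧ P (flip i z) • p = p ∧
      P (flip i z) • z ∈ Pent := by
  obtain ⟨i, hi⟩ := stab_cases hp
  have hU : ∀ᶠ z in nhds p, ∀ k, 0 < F k p → 0 < F k z := by
    rw [Filter.eventually_all]
    intro k
    by_cases h : 0 < F k p
    · filter_upwards [(continuous_F k).continuousAt.eventually (lt_mem_nhds h)] with z hz _
      exact hz
    · exact Filter.Eventually.of_forall fun z h' => absurd h' h
  obtain ⟨δ, hδ, hU⟩ := Metric.eventually_nhds_iff.mp hU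
  refine ⟨δ, hδ, i, hi, fun z hz => ?_⟩
  have hz1 := hU hz
  have e : ∀ k, F k z < 0 → F k p = 0 := by
    intro k hk
    by_contra h
    have : 0 < F k p := lt_of_le_of_ne (hp k) (Ne.symm h)
    linarith [hz1 k this]
  have hfix := flip_fix i z p (e i) (e (i + 1))
  refine ⟨hz1, hfix, fun k => ?_⟩
  by_cases hk : F k p = 0
  · rcases hi k hk with h | h
    · rw [h]; exact (flip_F i z).1
    · rw [h]; exact (flip_F i z).2
  · have hk' : 0 < F k p := lt_of_le_of_ne (hp k) (Ne.symm hk)
    refine (hU (y := P (flip i z) • z) ?_ k hk').le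
    calc dist (P (flip i z) • z) p = dist (P (flip i z) • z) (P (flip i z) • p) := by rw [hfix]
      _ = dist z p := dist_pgl _ _ _
      _ < δ := hz

end

end Q281.MF
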