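import Pool.Agent.Q281.MF.Group

/-! The translates of the axis and the two sides. -/

open UpperHalfPlane Matrix
open scoped MatrixGroups

namespace Q281.MF

noncomputable section

/-- `z` lies on a translate of the axis under the reflection group -/
def IsWall (z : ℍ) : Prop := ∃ l, F 0 (P l • z) = 0

/-- the union of the tiles of a given parity -/
def Side (ε : ZMod 2) : Set ℍ := {z | ∃ l, (col l).1 = ε ∧ P l • z ∈ Pent}

lemma col1_of_no0 {l : List (Fin 5)} (h : ∀ i ∈ l, i ≠ 0) : (col l).1 = 0 := by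
  induction l with
  | nil => rfl
  | cons i l ih =>
    rw [col_cons]
    have h1 : (clr i).1 = 0 := by
      have := h i (List.mem_cons_self ..)
      revert this; clear h ih; revert i; decide
    have h2 := ih (fun j hj => h j (List.mem_cons_of_mem _ hj))
    show (clr i).1 + (col l).1 = 0
    rw [h1, h2, add_zero]

lemma col_conj (m l : List (Fin 5)) : col (m ++ l ++ m.reverse) = col l := by
  rw [col_append, col_append, col_reverse, add_comm (col m), add_assoc, col_add_self, add_zero]

lemma wall_pent {z : ℍ} (hz : IsWall z) {m : List (Fin 5)} (hp : P m • z ∈ Pent) :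
    F 0 (P m • z) = 0 := by
  obtain ⟨l, hl⟩ := hz
  have hs : P ((m ++ l.reverse) ++ [0] ++ (m ++ l.reverse).reverse) • (P m • z) = P m • z := by
    rw [P_append, P_append, P_reverse, P_append, P_reverse, _root_.mul_inv_rev, inv_inv, P_cons,
      P_nil, mul_one]
    simp only [mul_smul, inv_smul_smul]
    rw [fix_of_F 0 _ hl, inv_smul_smul]
  have h1 := (sfd _ _ (IsW.P _) rfl _ hp (by rw [hs]; exact hp)).2
  obtain ⟨w, hw, hPw⟩ := closure_word h1
  by_contra h0
  have h2 : (col w).1 = 0 := by
    apply col1_of_no0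
    rintro i hi rfl
    exact h0 (hw 0 hi)
  rw [col_congr hPw, col_conj] at h2
  exact absurd h2 (by decide)

lemma side_unique {z : ℍ} (hz : ¬ IsWall z) {ε ε' : ZMod 2} (h : z ∈ Side ε) (h' : z ∈ Side ε') :
    ε = ε' := by
  obtain ⟨l, hl, hlp⟩ := h
  obtain ⟨m, hm, hmp⟩ := h'
  have hs : P (m ++ l.reverse) • (P l • z) = P m • z := by
    rw [P_append, P_reverse, mul_smul, inv_smul_smul]
  have h1 := (sfd _ _ (IsW.P _) rfl _ hlp (by rw [hs]; exact hmp)).2
  obtain ⟨w, hw, hPw⟩ := closure_word h1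
  have h2 : (col w).1 = 0 := by
    apply col1_of_no0
    rintro i hi rfl
    exact hz ⟨l, hw 0 hi⟩
  rw [col_congr hPw, col_append, col_reverse] at h2
  have h3 : ε' + ε = 0 := by rw [← hl, ← hm]; exact h2
  revert h3; clear hl hm h2; revert ε ε'; decide

lemma side_cover (z : ℍ) : z ∈ Side 0 ∨ z ∈ Side 1 := by
  obtain ⟨w, ⟨l, rfl⟩, hp⟩ := tiles_cover z
  have : (col l).1 = 0 ∨ (col l).1 = 1 := by
    generalize (col l).1 = x; revert x; decide
  rcases this with h | h
  · left; exact ⟨l, h, hp⟩
  · right; exact ⟨l, h, hp⟩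

lemma side_G {g : PGL(2, ℝ)} (hg : g ∈ G0) {z : ℍ} {ε : ZMod 2} (h : z ∈ Side ε) :
    g • z ∈ Side ε := by
  obtain ⟨l, hl, hp⟩ := h
  obtain ⟨m, rfl, hm⟩ := hg
  refine ⟨l ++ m.reverse, ?_, ?_⟩
  · rw [col_append, col_reverse, hm, add_zero]; exact hl
  · rw [P_append, P_reverse, mul_smul, inv_smul_smul]; exact hp

lemma wall_G {g : PGL(2, ℝ)} (hg : g ∈ G0) {z : ℍ} (h : IsWall z) : IsWall (g • z) := by
  obtain ⟨l, hl⟩ := h
  obtain ⟨m, rfl, hm⟩ := hg
  exact ⟨l ++ m.reverse, by rw [P_append, P_reverse, mul_smul, inv_smul_smul]; exact hl⟩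

lemma F0_eq (z : ℍ) : F 0 z = z.re / z.im := by simp [F, Fv, ca, cb, cc]

lemma F0_zero {z : ℍ} : F 0 z = 0 ↔ z.re = 0 := by
  rw [F0_eq, div_eq_zero_iff]
  constructor
  · intro h; exact h.resolve_right z.im_ne_zero
  · intro h; exact Or.inl h

lemma F0_word (l : List (Fin 5)) (hl : ∀ i ∈ l, i = 0 ∨ i = 1 ∨ i = 4) (z : ℍ) (h : F 0 z = 0) :
    F 0 (P l • z) = 0 := by
  induction l with
  | nil => simpa using h
  | cons i l ih =>
    have ih' := ih (fun j hj => hl j (List.mem_cons_of_mem _ hj))
    rw [P_cons, mul_smul]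
    rcases hl i (List.mem_cons_self ..) with rfl | rfl | rfl
    · rw [F_r_self, ih', neg_zero]
    · have := F_r_adj 0 (P l • z)
      rw [zero_add] at this
      rw [this, ih']
    · have := F_r_adj' 4 (P l • z)
      have e : (4 : Fin 5) + 1 = 0 := by decide
      rw [e] at this
      rw [this, ih']

lemma F0_tw (x : ZMod 2 × ZMod 2 × ZMod 2) (z : ℍ) (h : F 0 z = 0) : F 0 (P (tw x) • z) = 0 := by
  refine F0_word _ ?_ z h
  revert x; decide

/-- the walls are the translates of the axis under `G0` -/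
lemma wall_axis {z : ℍ} (hz : IsWall z) : ∃ g ∈ G0, ∃ a : ℍ, a.re = 0 ∧ g • a = z := by
  obtain ⟨l, hl⟩ := hz
  refine ⟨(P (tw (col l) ++ l))⁻¹, inv_mem ⟨_, rfl, ?_⟩, P (tw (col l)) • (P l • z), ?_, ?_⟩
  · rw [col_append, col_tw, col_add_self]
  · exact F0_zero.mp (F0_tw _ _ hl)
  · rw [P_append, ← mul_smul (P (tw (col l))), inv_smul_smul]

lemma col_flip (i : Fin 5) (y : ℍ) : (col (flip i y)).1 =
    (if F i y < 0 then (clr i).1 else 0) + (if F (i + 1) y < 0 then (clr (i + 1)).1 else 0) := by
  unfold flip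
  rw [col_append]
  show (col _).1 + (col _).1 = _
  congr 1
  · split_ifs <;> simp
  · split_ifs <;> simp

lemma clr1 {k : Fin 5} (h : k ≠ 0) : (clr k).1 = 0 := by revert h; revert k; decide

/-- local structure at a wall point -/
lemma wall_local {z : ℍ} (hz : IsWall z) : ∃ m : List (Fin 5), ∃ δ > 0, ∀ y, dist y z < δ →
    (IsWall y ↔ F 0 (P m • y) = 0) ∧
      y ∈ Side ((col m).1 + if F 0 (P m • y) < 0 then 1 else 0) := by
  obtain ⟨w, ⟨m, rfl⟩, hp⟩ := tiles_cover z
  have h0 := wall_pent hz hp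
  obtain ⟨δ, hδ, i, hi, h⟩ := local_cover hp
  refine ⟨m, δ, hδ, fun y hy => ?_⟩
  obtain ⟨_, h2, h3⟩ := h (P m • y) (by rwa [dist_pgl])
  have hi0 := hi 0 h0
  have hflip : P (flip i (P m • y)) • (P m • y) = P (flip i (P m • y) ++ m) • y := by
    rw [P_append, mul_smul]
  constructor
  · constructor
    · intro hw
      rw [hflip] at h3
      have h4 := wall_pent hw h3
      rw [← hflip] at h4
      -- the flip preserves vanishing of `F 0`
      rcases hi0 with rfl | h5
      · unfold flip at h4
        split_ifs at h4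
        · simp only [List.singleton_append, P_cons, P_nil, mul_one, mul_smul] at h4
          rw [F_r_self, F_r_adj] at h4
          linarith
        · simp only [List.append_nil, P_cons, P_nil, mul_one] at h4
          rw [F_r_self] at h4
          linarith
        · simp only [List.nil_append, P_cons, P_nil, mul_one] at h4
          rw [F_r_adj] at h4
          exact h4
        · simpa using h4
      · unfold flip at h4
        rw [h5] at h4 ⊢
        split_ifs at h4
        · simp only [List.singleton_append, P_cons, P_nil, mul_one, mul_smul] at h4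
          rw [F_r_adj', F_r_self] at h4
          linarith
        · simp only [List.append_nil, P_cons, P_nil, mul_one] at h4
          rw [F_r_adj'] at h4
          exact h4
        · simp only [List.nil_append, P_cons, P_nil, mul_one] at h4
          rw [F_r_self] at h4
          linarith
        · simpa using h4
    · intro h4; exact ⟨m, h4⟩
  · refine ⟨flip i (P m • y) ++ m, ?_, by rw [← hflip]; exact h3⟩
    rw [col_append]
    show (col _).1 + (col m).1 = _
    rw [col_flip, add_comm]
    congr 1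
    rcases hi0 with rfl | h5
    · have e1 : (clr (0 + 1 : Fin 5)).1 = 0 := by decide
      have e2 : (clr (0 : Fin 5)).1 = 1 := by decide
      rw [e1, e2]; simp
    · have e1 : (clr (i + 1)).1 = 1 := by rw [← h5]; decide
      have e2 : (clr i).1 = 0 := by
        apply clr1; rintro rfl; exact absurd h5 (by decide)
      rw [e1, e2, ← h5]; simp

/-- local structure off the walls -/
lemma off_local {z : ℍ} (hz : ¬ IsWall z) {ε : ZMod 2} (hε : z ∈ Side ε) :
    ∃ δ > 0, ∀ y, dist y z < δ → ¬ IsWall y ∧ y ∈ Side ε := by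
  obtain ⟨m, hm, hp⟩ := hε
  have h0 : F 0 (P m • z) ≠ 0 := fun h => hz ⟨m, h⟩
  have h0' : 0 < F 0 (P m • z) := lt_of_le_of_ne (hp 0) (Ne.symm h0)
  obtain ⟨δ, hδ, i, hi, h⟩ := local_cover hp
  refine ⟨δ, hδ, fun y hy => ?_⟩
  have hy' : dist (P m • y) (P m • z) < δ := by rwa [dist_pgl]
  obtain ⟨h1, h2, h3⟩ := h (P m • y) hy'
  have hflip : P (flip i (P m • y)) • (P m • y) = P (flip i (P m • y) ++ m) • y := by
    rw [P_append, mul_smul]
  have h4 : 0 < F 0 (P (flip i (P m • y)) • (P m • y)) := by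
    refine (h _ ?_).1 0 h0'
    calc dist (P (flip i (P m • y)) • (P m • y)) (P m • z)
        = dist (P (flip i (P m • y)) • (P m • y)) (P (flip i (P m • y)) • (P m • z)) := by rw [h2]
      _ = dist (P m • y) (P m • z) := dist_pgl _ _ _
      _ < δ := hy'
  constructor
  · intro hw
    rw [hflip] at h3 h4
    rw [wall_pent hw h3] at h4
    exact lt_irrefl _ h4
  · refine ⟨flip i (P m • y) ++ m, ?_, by rw [← hflip]; exact h3⟩
    rw [col_append]
    show (col _).1 + (col m).1 = _
    have e : ∀ k, F k (P m • y) < 0 → (clr k).1 = 0 := by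
      intro k hk
      apply clr1
      rintro rfl
      linarith [h1 0 h0']
    rw [col_flip, hm]
    split_ifs with h5 h6 h6
    · rw [e _ h5, e _ h6]; simp
    · rw [e _ h5]; simp
    · rw [e _ h6]; simp
    · simp

end

end Q281.MF
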