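import Pool.Agent.Q281.MF.Model

/-! Words in the reflections and their colours. -/

open UpperHalfPlane Matrix
open scoped MatrixGroups

namespace Q281.MF

noncomputable section

/-- the isometry of a word -/
def P (l : List (Fin 5)) : PGL(2, ℝ) := (l.map r).prod

@[simp] lemma P_nil : P [] = 1 := rfl
@[simp] lemma P_cons (i : Fin 5) (l : List (Fin 5)) : P (i :: l) = r i * P l := by simp [P]
lemma P_append (l m : List (Fin 5)) : P (l ++ m) = P l * P m := by simp [P]
lemma P_reverse (l : List (Fin 5)) : P l.reverse = (P l)⁻¹ := by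
  induction l with
  | nil => simp
  | cons i l ih =>
    rw [List.reverse_cons, P_append, ih, P_cons, P_cons, _root_.mul_inv_rev, r_inv]
    simp

/-- the colour of a letter: sides `0`; `1, 3`; `2, 4` -/
def clr : Fin 5 → ZMod 2 × ZMod 2 × ZMod 2 :=
  ![(1, 0, 0), (0, 1, 0), (0, 0, 1), (0, 1, 0), (0, 0, 1)]

/-- the colour of a word -/
def col (l : List (Fin 5)) : ZMod 2 × ZMod 2 × ZMod 2 := (l.map clr).sum

@[simp] lemma col_nil : col [] = 0 := rfl
@[simp] lemma col_cons (i : Fin 5) (l : List (Fin 5)) : col (i :: l) = clr i + col l := by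
  simp [col]
lemma col_append (l m : List (Fin 5)) : col (l ++ m) = col l + col m := by simp [col]
lemma col_reverse (l : List (Fin 5)) : col l.reverse = col l := by
  simp [col, List.sum_reverse]

lemma col_add_self (x : ZMod 2 × ZMod 2 × ZMod 2) : x + x = 0 := by
  revert x; decide

/-- the rational determinant of a word -/
def dw (l : List (Fin 5)) : ℚ := (l.map dt).prod

lemma dw_eq (l : List (Fin 5)) : ∃ a b c e : ℕ, dw l = (-1) ^ a * 3 ^ b * 11 ^ c * 4 ^ e ∧
    col l = ((a : ZMod 2) + b, (b : ZMod 2) + c, (c : ZMod 2)) := by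
  induction l with
  | nil => exact ⟨0, 0, 0, 0, by simp [dw], by simp; rfl⟩
  | cons i l ih =>
    obtain ⟨a, b, c, e, h, h'⟩ := ih
    have hd : dw (i :: l) = dt i * dw l := by simp [dw]
    have two : (1 : ZMod 2) + 1 = 0 := by decide
    fin_cases i
    · refine ⟨a + 1, b, c, e, ?_, ?_⟩
      · rw [hd, h]; simp [dt]; ring
      · rw [col_cons, h']; simp [clr]; ring
    · refine ⟨a + 1, b + 1, c, e, ?_, ?_⟩
      · rw [hd, h]; simp [dt]; ring
      · rw [col_cons, h']; simp [clr]
        refine ⟨by linear_combination (-1 : ZMod 2) * two, by ring⟩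
    · refine ⟨a + 1, b + 1, c + 1, e, ?_, ?_⟩
      · rw [hd, h]; simp [dt]; ring
      · rw [col_cons, h']; simp [clr]
        refine ⟨by linear_combination (-1 : ZMod 2) * two,
          by linear_combination (-1 : ZMod 2) * two, by ring⟩
    · refine ⟨a + 1, b + 1, c, e + 1, ?_, ?_⟩
      · rw [hd, h]; simp [dt]; ring
      · rw [col_cons, h']; simp [clr]
        refine ⟨by linear_combination (-1 : ZMod 2) * two, by ring⟩
    · refine ⟨a + 1, b + 1, c + 1, e + 1, ?_, ?_⟩
      · rw [hd, h]; simp [dt]; ring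
      · rw [col_cons, h']; simp [clr]
        refine ⟨by linear_combination (-1 : ZMod 2) * two,
          by linear_combination (-1 : ZMod 2) * two, by ring⟩

lemma even_of_sq (a b c e : ℕ) (t : ℚ) (ht : t ≠ 0)
    (h : t ^ 2 = (-1) ^ a * 3 ^ b * 11 ^ c * 4 ^ e) : Even a ∧ Even b ∧ Even c := by
  have ha : Even a := by
    by_contra ha
    rw [Nat.not_even_iff_odd] at ha
    rw [ha.neg_one_pow] at h
    have : 0 < t ^ 2 := by positivity
    have h2 : (0 : ℚ) < 3 ^ b * 11 ^ c * 4 ^ e := by positivity
    nlinarith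
  rw [ha.neg_one_pow, one_mul] at h
  have p3 : Fact (Nat.Prime 3) := ⟨by norm_num⟩
  have p11 : Fact (Nat.Prime 11) := ⟨by norm_num⟩
  have v1 : padicValRat 3 (11 : ℚ) = 0 := by
    have : padicValRat 3 ((11 : ℕ) : ℚ) = 0 := by
      rw [padicValRat.of_nat, padicValNat.eq_zero_of_not_dvd (by norm_num)]; rfl
    exact_mod_cast this
  have v2 : padicValRat 3 (4 : ℚ) = 0 := by
    have : padicValRat 3 ((4 : ℕ) : ℚ) = 0 := by
      rw [padicValRat.of_nat, padicValNat.eq_zero_of_not_dvd (by norm_num)]; rfl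
    exact_mod_cast this
  have v3 : padicValRat 11 (3 : ℚ) = 0 := by
    have : padicValRat 11 ((3 : ℕ) : ℚ) = 0 := by
      rw [padicValRat.of_nat, padicValNat.eq_zero_of_not_dvd (by norm_num)]; rfl
    exact_mod_cast this
  have v4 : padicValRat 11 (4 : ℚ) = 0 := by
    have : padicValRat 11 ((4 : ℕ) : ℚ) = 0 := by
      rw [padicValRat.of_nat, padicValNat.eq_zero_of_not_dvd (by norm_num)]; rfl
    exact_mod_cast this
  have s3 : padicValRat 3 (3 : ℚ) = 1 := by
    have := padicValRat.self (p := 3) (by norm_num); exact_mod_cast this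
  have s11 : padicValRat 11 (11 : ℚ) = 1 := by
    have := padicValRat.self (p := 11) (by norm_num); exact_mod_cast this
  refine ⟨ha, ?_, ?_⟩
  · have := congrArg (padicValRat 3) h
    rw [padicValRat.pow, padicValRat.mul (by positivity) (by positivity),
      padicValRat.mul (by positivity) (by positivity), padicValRat.pow,
      padicValRat.pow, padicValRat.pow, v1, v2, s3] at this
    rw [← Int.even_coe_nat]
    refine ⟨padicValRat 3 t, ?_⟩
    push_cast at this
    linarith
  · have := congrArg (padicValRat 11) h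
    rw [padicValRat.pow, padicValRat.mul (by positivity) (by positivity),
      padicValRat.mul (by positivity) (by positivity), padicValRat.pow,
      padicValRat.pow, padicValRat.pow, v3, v4, s11] at this
    rw [← Int.even_coe_nat]
    refine ⟨padicValRat 11 t, ?_⟩
    push_cast at this
    linarith

/-- the rational matrix of a word -/
def Mq (l : List (Fin 5)) : GL (Fin 2) ℚ := (l.map gq).prod

lemma Mq_det (l : List (Fin 5)) : (Mq l).det.val = dw l := by
  induction l with
  | nil => simp [Mq, dw]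
  | cons i l ih =>
    have h1 : Mq (i :: l) = gq i * Mq l := by simp [Mq]
    have h2 : dw (i :: l) = dt i * dw l := by simp [dw]
    rw [h1, h2, map_mul, Units.val_mul, ih]
    congr 1
    rw [GeneralLinearGroup.val_det_apply]
    simp [gq, GeneralLinearGroup.mkOfDetNeZero, Rm_det]

lemma P_eq (l : List (Fin 5)) : P l = ProjGenLinGroup.mk (toR (Mq l)) := by
  induction l with
  | nil => simp [Mq]
  | cons i l ih =>
    have h1 : Mq (i :: l) = gq i * Mq l := by simp [Mq]
    rw [P_cons, ih, h1, map_mul, map_mul]; rfl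

lemma col_eq_zero {l : List (Fin 5)} (h : P l = 1) : col l = 0 := by
  rw [P_eq, ProjGenLinGroup.mk_eq_one, Matrix.GeneralLinearGroup.center_eq_range_scalar] at h
  obtain ⟨u, hu⟩ := h
  have e00 := congrArg (fun g : GL (Fin 2) ℝ => g 0 0) hu
  have e01 := congrArg (fun g : GL (Fin 2) ℝ => g 0 1) hu
  have e10 := congrArg (fun g : GL (Fin 2) ℝ => g 1 0) hu
  have e11 := congrArg (fun g : GL (Fin 2) ℝ => g 1 1) hu
  have key : ∀ j k, (toR (Mq l)) j k = ((Mq l j k : ℚ) : ℝ) := by
    intro j k; simp [toR]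
  simp only [key] at e00 e01 e10 e11
  simp at e00 e01 e10 e11
  have d : (Mq l).det.val = (Mq l 0 0) ^ 2 := by
    rw [GeneralLinearGroup.val_det_apply, Matrix.det_fin_two]
    have h1 : (Mq l 1 1 : ℚ) = Mq l 0 0 := by
      have : ((Mq l 1 1 : ℚ) : ℝ) = (Mq l 0 0 : ℚ) := by rw [← e00, ← e11]
      exact_mod_cast this
    have h2 : (Mq l 0 1 : ℚ) = 0 := by first | exact e01.symm | exact_mod_cast e01.symm
    have h3 : (Mq l 1 0 : ℚ) = 0 := by first | exact e10.symm | exact_mod_cast e10.symm
    rw [h1, h2, h3]; ring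
  have hne : Mq l 0 0 ≠ 0 := by
    intro h0
    rw [h0] at d
    exact (Mq l).det.ne_zero (by simpa using d)
  obtain ⟨a, b, c, e, h1, h2⟩ := dw_eq l
  rw [Mq_det, h1] at d
  obtain ⟨ha, hb, hc⟩ := even_of_sq a b c e _ hne d.symm
  rw [h2]
  have z : ∀ n : ℕ, Even n → (n : ZMod 2) = 0 := by
    intro n hn; exact (ZMod.natCast_eq_zero_iff_even).mpr hn
  rw [z a ha, z b hb, z c hc]
  rfl

lemma col_congr {l m : List (Fin 5)} (h : P l = P m) : col l = col m := by
  have h1 : P (l ++ m.reverse) = 1 := by rw [P_append, P_reverse, h, mul_inv_cancel]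
  have h2 := col_eq_zero h1
  rw [col_append, col_reverse] at h2
  calc col l = col l + (col m + col m) := by rw [col_add_self, add_zero]
    _ = (col l + col m) + col m := by rw [add_assoc]
    _ = col m := by rw [h2, zero_add]

end

end Q281.MF
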